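import Pool.Agent.W5h1.Hyp.GP

set_option autoImplicit false

namespace Pool.Agent.W5h1.Hyp

open Finset

variable {n d : ℕ}

/-- The edges on `A ∪ B ∪ C` which are not inside `A` and not inside `B`. -/
def coneSet (A B C : Finset (Fin n)) : Set (Sym2 (Fin n)) :=
  {e | ¬ e.IsDiag ∧ (∀ v ∈ e, v ∈ A ∪ B ∪ C) ∧ ¬ (∀ v ∈ e, v ∈ A) ∧ ¬ (∀ v ∈ e, v ∈ B)}

theorem mem_coneSet {A B C : Finset (Fin n)} {i j : Fin n} :
    s(i, j) ∈ coneSet A B C ↔ i ≠ j ∧ (i ∈ A ∪ B ∪ C ∧ j ∈ A ∪ B ∪ C) ∧ ¬ (i ∈ A ∧ j ∈ A) ∧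
      ¬ (i ∈ B ∧ j ∈ B) := by
  simp only [coneSet, Set.mem_ofPred_eq, Sym2.mk_isDiag_iff, Sym2.mem_iff]
  simp only [forall_eq_or_imp, forall_eq]

/-- The wedge of two vectors. -/
def wedge (x y : Fin n → ℝ) (i j : Fin n) : ℝ := x i * y j - x j * y i

theorem sum_wedge (p : Fin n → Fin d → ℝ) (x y : Fin n → ℝ) (i : Fin n) :
    ∑ j, wedge x y i j • p j = x i • ∑ j, y j • p j - y i • ∑ j, x j • p j := by
  simp only [wedge, sub_smul, Finset.sum_sub_distrib, mul_smul, ← Finset.smul_sum]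
  congr 1
  rw [Finset.smul_sum]
  refine Finset.sum_congr rfl fun j _ => ?_
  rw [smul_comm]

theorem wedge_skew (x y : Fin n → ℝ) (i j : Fin n) : wedge x y i j = - wedge x y j i := by
  unfold wedge; ring

theorem isStress_wedge {p : Fin n → Fin d → ℝ} {x y : Fin n → ℝ} (hx : ∑ j, x j • p j = 0)
    (hy : ∑ j, y j • p j = 0) : IsStress p (wedge x y) :=
  ⟨wedge_skew x y, fun i => by rw [sum_wedge, hx, hy]; simp⟩

/-- The stresses on `coneSet A B C` are the multiples of the wedge of the dependencies of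
`A ∪ C` and `B ∪ C`. -/
theorem cone_stress_unique {p : Fin n → Fin d → ℝ} {A B C : Finset (Fin n)}
    (hAB : Disjoint A B) (hAC : Disjoint A C) (hBC : Disjoint B C)
    (hA : A.Nonempty) (hB : B.Nonempty) {x y : Fin n → ℝ} (hx : Dep p (A ∪ C) x)
    (hy : Dep p (B ∪ C) y) (hC : Free p C) {ω : Fin n → Fin n → ℝ} (hω : IsStress p ω)
    (hs : ∀ i j, s(i, j) ∉ coneSet A B C → ω i j = 0) :
    ∃ t : ℝ, ∀ i j, ω i j = t * wedge x y i j := by
  classical
  have hAB' : ∀ v, v ∈ A → v ∉ B := fun v h => Finset.disjoint_left.1 hAB h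
  have hAC' : ∀ v, v ∈ A → v ∉ C := fun v h => Finset.disjoint_left.1 hAC h
  have hBC' : ∀ v, v ∈ B → v ∉ C := fun v h => Finset.disjoint_left.1 hBC h
  have hrowA : ∀ a ∈ A, ∃ t : ℝ, ∀ j, ω a j = t * y j := by
    intro a ha
    refine hy.2.2 (ω a) (fun v hv => hs a v ?_) (hω.2 a)
    rw [mem_coneSet]
    rintro ⟨-, ⟨-, h1⟩, h2, -⟩
    simp only [Finset.mem_union] at h1 hv
    tauto
  have hrowB : ∀ b ∈ B, ∃ t : ℝ, ∀ j, ω b j = t * x j := by
    intro b hb
    refine hx.2.2 (ω b) (fun v hv => hs b v ?_) (hω.2 b)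
    rw [mem_coneSet]
    rintro ⟨-, ⟨-, h1⟩, -, h2⟩
    simp only [Finset.mem_union] at h1 hv
    tauto
  obtain ⟨a0, ha0⟩ := hA
  obtain ⟨b0, hb0⟩ := hB
  have hxa : ∀ a ∈ A, x a ≠ 0 := fun a ha => (hx.1 a).2 (Finset.mem_union_left _ ha)
  have hyb : ∀ b ∈ B, y b ≠ 0 := fun b hb => (hy.1 b).2 (Finset.mem_union_left _ hb)
  have hxb : ∀ b ∈ B, x b = 0 := fun b hb => hx.zero (by
    simp only [Finset.mem_union, not_or]
    exact ⟨fun h => hAB' b h hb, hBC' b hb⟩)
  have hya : ∀ a ∈ A, y a = 0 := fun a ha => hy.zero (by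
    simp only [Finset.mem_union, not_or]
    exact ⟨hAB' a ha, hAC' a ha⟩)
  obtain ⟨t0, ht0⟩ := hrowA a0 ha0
  set t : ℝ := t0 / x a0 with ht
  have hB1 : ∀ b ∈ B, ∀ j, ω b j = - t * y b * x j := by
    intro b hb j
    obtain ⟨s, hs1⟩ := hrowB b hb
    have h1 : ω b a0 = s * x a0 := hs1 a0
    have h2 : ω a0 b = t0 * y b := ht0 b
    have h3 := hω.1 a0 b
    have h4 : s = - t * y b := by
      rw [ht]
      have := hxa a0 ha0
      field_simp
      rw [h1, h2] at h3
      linarith
    rw [hs1 j, h4]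
  have hA1 : ∀ a ∈ A, ∀ j, ω a j = t * x a * y j := by
    intro a ha j
    obtain ⟨s, hs1⟩ := hrowA a ha
    have h1 : ω a b0 = s * y b0 := hs1 b0
    have h2 := hB1 b0 hb0 a
    have h3 := hω.1 a b0
    have h4 : s = t * x a := by
      have h5 := hyb b0 hb0
      rw [h1, h2] at h3
      have h6 : (s - t * x a) * y b0 = 0 := by linarith
      rcases mul_eq_zero.1 h6 with h7 | h7
      · linarith
      · exact absurd h7 h5
    rw [hs1 j, h4]
  refine ⟨t, ?_⟩
  set η : Fin n → Fin n → ℝ := fun i j => ω i j - t * wedge x y i j with hη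
  have hηs : ∀ i j, η i j = - η j i := by
    intro i j
    simp only [hη]
    rw [hω.1 i j, wedge_skew x y i j]
    ring
  have hηA : ∀ a ∈ A, ∀ j, η a j = 0 := by
    intro a ha j
    simp only [hη, hA1 a ha j, wedge, hya a ha]
    ring
  have hηB : ∀ b ∈ B, ∀ j, η b j = 0 := by
    intro b hb j
    simp only [hη, hB1 b hb j, wedge, hxb b hb]
    ring
  have hηr : ∀ i, ∑ j, η i j • p j = 0 := by
    intro i
    have h1 := (isStress_wedge hx.2.1 hy.2.1).2 i
    simp only [hη, sub_smul, Finset.sum_sub_distrib, hω.2 i, mul_smul, ← Finset.smul_sum, h1]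
    simp
  have hη0 : ∀ i, η i = 0 := by
    intro i
    refine hC (η i) (fun v hv => ?_) (hηr i)
    by_cases hvA : v ∈ A
    · rw [hηs, hηA v hvA, neg_zero]
    by_cases hvB : v ∈ B
    · rw [hηs, hηB v hvB, neg_zero]
    have h1 : ω i v = 0 := hs i v (by
      rw [mem_coneSet]
      rintro ⟨-, ⟨-, h1⟩, -⟩
      simp only [Finset.mem_union] at h1
      tauto)
    have h2 : x v = 0 := hx.zero (by simp [hvA, hv])
    have h3 : y v = 0 := hy.zero (by simp [hvB, hv])
    simp [hη, h1, wedge, h2, h3]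
  intro i j
  have := congrFun (hη0 i) j
  simp only [hη, Pi.zero_apply] at this
  linarith

theorem coneSet_subset_edges (A B C : Finset (Fin n)) : coneSet A B C ⊆ edges n :=
  fun _ he => he.1

theorem wedge_supp {p : Fin n → Fin d → ℝ} {A B C : Finset (Fin n)}
    {x y : Fin n → ℝ} (hx : Dep p (A ∪ C) x) (hy : Dep p (B ∪ C) y)
    (hAB : Disjoint A B) (hAC : Disjoint A C) (hBC : Disjoint B C) (i j : Fin n)
    (h : s(i, j) ∉ coneSet A B C) : wedge x y i j = 0 := by
  classical
  have hAB' : ∀ v, v ∈ A → v ∉ B := fun v h => Finset.disjoint_left.1 hAB h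
  have hAC' : ∀ v, v ∈ A → v ∉ C := fun v h => Finset.disjoint_left.1 hAC h
  have hBC' : ∀ v, v ∈ B → v ∉ C := fun v h => Finset.disjoint_left.1 hBC h
  unfold wedge
  by_cases hij : i = j
  · subst hij; ring
  have hx0 : ∀ v, v ∉ A → v ∉ C → x v = 0 := fun v h1 h2 => hx.zero (by simp [h1, h2])
  have hy0 : ∀ v, v ∉ B → v ∉ C → y v = 0 := fun v h1 h2 => hy.zero (by simp [h1, h2])
  rw [mem_coneSet] at h
  by_cases h1 : i ∈ A ∪ B ∪ C
  · by_cases h2 : j ∈ A ∪ B ∪ C
    · by_cases h3 : i ∈ A ∧ j ∈ A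
      · rw [hy0 i (hAB' i h3.1) (hAC' i h3.1), hy0 j (hAB' j h3.2) (hAC' j h3.2)]; ring
      · have h4 : i ∈ B ∧ j ∈ B := by tauto
        have hiA : i ∉ A := fun h => hAB' i h h4.1
        have hjA : j ∉ A := fun h => hAB' j h h4.2
        rw [hx0 i hiA (hBC' i h4.1), hx0 j hjA (hBC' j h4.2)]; ring
    · simp only [Finset.mem_union, not_or] at h2
      rw [hx0 j h2.1.1 h2.2, hy0 j h2.1.2 h2.2]; ring
  · simp only [Finset.mem_union, not_or] at h1
    rw [hx0 i h1.1.1 h1.2, hy0 i h1.1.2 h1.2]; ring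

theorem cone_dependent {p : Fin n → Fin d → ℝ} {A B C : Finset (Fin n)}
    (hAB : Disjoint A B) (hAC : Disjoint A C) (hBC : Disjoint B C)
    (hA : A.Nonempty) (hB : B.Nonempty) {x y : Fin n → ℝ} (hx : Dep p (A ∪ C) x)
    (hy : Dep p (B ∪ C) y) : ¬ LinearIndepOn ℝ (vec p) (coneSet A B C) := by
  classical
  rw [linearIndepOn_iff_stress (coneSet_subset_edges A B C)]
  intro h
  have h1 := h (wedge x y) (isStress_wedge hx.2.1 hy.2.1) (wedge_supp hx hy hAB hAC hBC)
  obtain ⟨a, ha⟩ := hA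
  obtain ⟨b, hb⟩ := hB
  have h2 := congrFun (congrFun h1 a) b
  simp only [wedge, Pi.zero_apply] at h2
  have h3 : x b = 0 := hx.zero (by
    simp only [Finset.mem_union, not_or]
    exact ⟨fun h => Finset.disjoint_left.1 hAB h hb, Finset.disjoint_left.1 hBC hb⟩)
  rw [h3, zero_mul, sub_zero] at h2
  rcases mul_eq_zero.1 h2 with h4 | h4
  · exact (hx.1 a).2 (Finset.mem_union_left _ ha) h4
  · exact (hy.1 b).2 (Finset.mem_union_left _ hb) h4

/-- If the wedge does not vanish on the edge `e`, then the set without `e` is independent. -/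
theorem cone_minus_indep {p : Fin n → Fin d → ℝ} {A B C : Finset (Fin n)}
    (hAB : Disjoint A B) (hAC : Disjoint A C) (hBC : Disjoint B C)
    (hA : A.Nonempty) (hB : B.Nonempty) {x y : Fin n → ℝ} (hx : Dep p (A ∪ C) x)
    (hy : Dep p (B ∪ C) y) (hC : Free p C)
    (hne : ∀ i ∈ C, ∀ j ∈ C, i ≠ j → wedge x y i j ≠ 0) {e : Sym2 (Fin n)}
    (he : e ∈ coneSet A B C) : LinearIndepOn ℝ (vec p) (coneSet A B C \ {e}) := by
  classical
  rw [linearIndepOn_iff_stress (Set.sdiff_subset.trans (coneSet_subset_edges A B C))]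
  intro ω hω hs
  obtain ⟨t, ht⟩ := cone_stress_unique hAB hAC hBC hA hB hx hy hC hω
    (fun i j h => hs i j (fun h' => h h'.1))
  have hAB' : ∀ v, v ∈ A → v ∉ B := fun v h => Finset.disjoint_left.1 hAB h
  have hAC' : ∀ v, v ∈ A → v ∉ C := fun v h => Finset.disjoint_left.1 hAC h
  have hBC' : ∀ v, v ∈ B → v ∉ C := fun v h => Finset.disjoint_left.1 hBC h
  have hx0 : ∀ v, v ∉ A → v ∉ C → x v = 0 := fun v h1 h2 => hx.zero (by simp [h1, h2])
  have hy0 : ∀ v, v ∉ B → v ∉ C → y v = 0 := fun v h1 h2 => hy.zero (by simp [h1, h2])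
  have hx1 : ∀ v, v ∈ A ∨ v ∈ C → x v ≠ 0 := fun v h => (hx.1 v).2 (by simpa using h)
  have hy1 : ∀ v, v ∈ B ∨ v ∈ C → y v ≠ 0 := fun v h => (hy.1 v).2 (by simpa using h)
  have hw : ∀ i j, s(i, j) ∈ coneSet A B C → wedge x y i j ≠ 0 := by
    intro i j hij
    rw [mem_coneSet] at hij
    obtain ⟨hne', ⟨hi, hj⟩, h2, h3⟩ := hij
    simp only [Finset.mem_union] at hi hj
    by_cases hiC : i ∈ C
    · by_cases hjC : j ∈ C
      · exact hne i hiC j hjC hne'
      · rcases hj with (hj | hj) | hj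
        · have h4 : y j = 0 := hy0 j (hAB' j hj) hjC
          simp only [wedge, h4, mul_zero, zero_sub]
          exact neg_ne_zero.2 (mul_ne_zero (hx1 j (Or.inl hj)) (hy1 i (Or.inr hiC)))
        · have h4 : x j = 0 := hx0 j (fun h => hAB' j h hj) hjC
          simp only [wedge, h4, zero_mul, sub_zero]
          exact mul_ne_zero (hx1 i (Or.inr hiC)) (hy1 j (Or.inl hj))
        · exact absurd hj hjC
    · rcases hi with (hi | hi) | hi
      · have h4 : y i = 0 := hy0 i (hAB' i hi) hiC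
        simp only [wedge, h4, mul_zero, sub_zero]
        refine mul_ne_zero (hx1 i (Or.inl hi)) (hy1 j ?_)
        tauto
      · have h4 : x i = 0 := hx0 i (fun h => hAB' i h hi) hiC
        simp only [wedge, h4, zero_mul, zero_sub]
        refine neg_ne_zero.2 (mul_ne_zero (hx1 j ?_) (hy1 i (Or.inl hi)))
        tauto
      · exact absurd hi hiC
  have ht0 : t = 0 := by
    induction e using Sym2.ind with
    | _ i j =>
      have h1 := hs i j (fun h => h.2 rfl)
      rw [ht i j] at h1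
      rcases mul_eq_zero.1 h1 with h2 | h2
      · exact h2
      · exact absurd h2 (hw i j he)
  funext i j
  rw [ht i j, ht0]
  simp

theorem sum_update (p : Fin n → Fin d → ℝ) (b : Fin n) (q : Fin d → ℝ) (z : Fin n → ℝ) :
    ∑ v, z v • (Function.update p b q) v = z b • q + ∑ v ∈ univ.erase b, z v • p v := by
  classical
  rw [← Finset.add_sum_erase _ _ (Finset.mem_univ b), Function.update_self]
  congr 1
  refine Finset.sum_congr rfl fun v hv => ?_
  rw [Function.update_of_ne (Finset.ne_of_mem_erase hv)]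

theorem sum_update_of_zero (p : Fin n → Fin d → ℝ) (b : Fin n) (q : Fin d → ℝ) (z : Fin n → ℝ)
    (hz : z b = 0) : ∑ v, z v • (Function.update p b q) v = ∑ v, z v • p v := by
  classical
  rw [sum_update, ← Finset.add_sum_erase univ (fun v => z v • p v) (Finset.mem_univ b), hz]
  simp

theorem Free.update {p : Fin n → Fin d → ℝ} {T : Finset (Fin n)} (h : Free p T) {b : Fin n}
    (hb : b ∉ T) (q : Fin d → ℝ) : Free (Function.update p b q) T := by
  intro z hz hs
  rw [sum_update_of_zero p b q z (hz b hb)] at hs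
  exact h z hz hs

theorem Dep.update {p : Fin n → Fin d → ℝ} {T : Finset (Fin n)} {x : Fin n → ℝ} (h : Dep p T x)
    {b : Fin n} (hb : b ∉ T) (q : Fin d → ℝ) : Dep (Function.update p b q) T x := by
  refine ⟨h.1, ?_, fun z hz hs => ?_⟩
  · rw [sum_update_of_zero p b q x (h.zero hb)]
    exact h.2.1
  · rw [sum_update_of_zero p b q z (hz b hb)] at hs
    exact h.2.2 z hz hs

/-- Moving the point of `b` one can prescribe the dependency of `T`. -/
theorem dep_update {p : Fin n → Fin d → ℝ} {T : Finset (Fin n)} {y : Fin n → ℝ} {b : Fin n}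
    (hb : b ∈ T) (hf : Free p (T.erase b)) (hy : ∀ v, y v ≠ 0 ↔ v ∈ T) :
    Dep (Function.update p b (- (y b)⁻¹ • ∑ v ∈ univ.erase b, y v • p v)) T y := by
  classical
  refine dep_of_erase hb (hf.update (Finset.notMem_erase b T) _) hy ?_
  rw [sum_update, smul_smul, mul_neg, mul_inv_cancel₀ ((hy b).2 hb)]
  simp

/-- The members of the family are circuits: all their edges but one are independent for generic
points. -/
theorem cone_minus_indep_generic {p : Fin n → Fin d → ℝ} (hp : Generic p)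
    {A B C : Finset (Fin n)}
    (hAB : Disjoint A B) (hAC : Disjoint A C) (hBC : Disjoint B C)
    (hA : A.Nonempty) (hB : B.Nonempty) (hA1 : (A ∪ C).card = d + 1)
    (hB1 : (B ∪ C).card = d + 1) {e : Sym2 (Fin n)}
    (he : e ∈ coneSet A B C) : LinearIndepOn ℝ (vec p) (coneSet A B C \ {e}) := by
  classical
  have hf : ∀ T : Finset (Fin n), T.card ≤ d → Free p T := fun T hT => free_of_generic hp hT
  obtain ⟨x, hx⟩ := exists_dep hf hA1
  obtain ⟨b, hb⟩ := hB
  have hbA : b ∉ A := fun h => Finset.disjoint_left.1 hAB h hb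
  have hbC : b ∉ C := Finset.disjoint_left.1 hBC hb
  have hx0 : ∀ v, v ∈ C → x v ≠ 0 := fun v h => (hx.1 v).2 (Finset.mem_union_right _ h)
  have hC : Free p C := hf C (by
    have h1 : (insert b C).card ≤ (B ∪ C).card :=
      Finset.card_le_card (Finset.insert_subset (Finset.mem_union_left _ hb)
        Finset.subset_union_right)
    rw [Finset.card_insert_of_notMem hbC, hB1] at h1
    omega)
  set y : Fin n → ℝ := fun v => if v ∈ C then ((v.val : ℝ) + 1) * x v else
    if v ∈ B then 1 else 0 with hy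
  have hyB : ∀ v, y v ≠ 0 ↔ v ∈ B ∪ C := by
    intro v
    rw [Finset.mem_union]
    by_cases h1 : v ∈ C
    · have h2 : y v = ((v.val : ℝ) + 1) * x v := by simp [hy, h1]
      rw [h2]
      have h3 : ((v.val : ℝ) + 1) ≠ 0 := by positivity
      simp [h1, h3, hx0 v h1]
    · by_cases h2 : v ∈ B
      · simp [hy, h1, h2]
      · simp [hy, h1, h2]
  have hdep := dep_update (p := p) (Finset.mem_union_left C hb)
    (hf ((B ∪ C).erase b) (by
      rw [Finset.card_erase_of_mem (Finset.mem_union_left C hb), hB1]; simp)) hyB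
  refine linearIndepOn_of_generic hp (cone_minus_indep hAB hAC hBC hA ⟨b, hb⟩
    (hx.update (by simp [hbA, hbC]) _) hdep (hC.update hbC _) ?_ he)
  intro i hi j hj hij
  have h1 : y i = ((i.val : ℝ) + 1) * x i := by simp [hy, hi]
  have h2 : y j = ((j.val : ℝ) + 1) * x j := by simp [hy, hj]
  have h3 : wedge x y i j = x i * x j * ((j.val : ℝ) - (i.val : ℝ)) := by
    simp only [wedge, h1, h2]; ring
  rw [h3]
  refine mul_ne_zero (mul_ne_zero (hx0 i hi) (hx0 j hj)) ?_
  rw [sub_ne_zero]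
  intro h4
  apply hij
  have h5 : j.val = i.val := by exact_mod_cast h4
  exact (Fin.ext h5).symm

theorem cone_dependent_generic {p : Fin n → Fin d → ℝ} (hp : Generic p)
    {A B C : Finset (Fin n)}
    (hAB : Disjoint A B) (hAC : Disjoint A C) (hBC : Disjoint B C)
    (hA : A.Nonempty) (hB : B.Nonempty) (hA1 : (A ∪ C).card = d + 1)
    (hB1 : (B ∪ C).card = d + 1) : ¬ LinearIndepOn ℝ (vec p) (coneSet A B C) := by
  have hf : ∀ T : Finset (Fin n), T.card ≤ d → Free p T := fun T hT => free_of_generic hp hT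
  obtain ⟨x, hx⟩ := exists_dep hf hA1
  obtain ⟨y, hy⟩ := exists_dep hf hB1
  exact cone_dependent hAB hAC hBC hA hB hx hy

/-! ### The copies of the cones -/

/-- The vertices of the cone as the sum of the base vertices and the apices. -/
def toSum {V : Type} : (k : ℕ) → ConeVertex V k → V ⊕ Fin k
  | 0, x => Sum.inl x
  | _ + 1, none => Sum.inr (Fin.last _)
  | k + 1, some x => Sum.map id Fin.castSucc (toSum k x)

theorem toSum_injective {V : Type} : ∀ k, Function.Injective (toSum (V := V) k)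
  | 0 => fun _ _ h => Sum.inl_injective h
  | k + 1 => by
    rintro (_ | x) (_ | y) h
    · rfl
    · exfalso
      have h' : Sum.inr (Fin.last k) = Sum.map id Fin.castSucc (toSum k y) := h
      rcases h2 : toSum k y with v | i
      · rw [h2] at h'; simp at h'
      · rw [h2] at h'
        simp only [Sum.map_inr, Sum.inr.injEq] at h'
        exact (Fin.castSucc_lt_last i).ne h'.symm
    · exfalso
      have h' : Sum.map id Fin.castSucc (toSum k x) = Sum.inr (Fin.last k) := h
      rcases h2 : toSum k x with v | i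
      · rw [h2] at h'; simp at h'
      · rw [h2] at h'
        simp only [Sum.map_inr, Sum.inr.injEq] at h'
        exact (Fin.castSucc_lt_last i).ne h'
    · have h' : Sum.map id Fin.castSucc (toSum k x) = Sum.map id Fin.castSucc (toSum k y) := h
      have h1 := toSum_injective k
        (Sum.map_injective.2 ⟨Function.injective_id, Fin.castSucc_injective k⟩ h')
      rw [h1]

theorem toSum_surjective {V : Type} : ∀ k, Function.Surjective (toSum (V := V) k)
  | 0 => by
    rintro (v | i)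
    · exact ⟨v, rfl⟩
    · exact i.elim0
  | k + 1 => by
    rintro (v | i)
    · obtain ⟨x, hx⟩ := toSum_surjective k (Sum.inl v)
      exact ⟨some x, by show Sum.map id Fin.castSucc (toSum k x) = _; rw [hx]; rfl⟩
    · induction i using Fin.lastCases with
      | last => exact ⟨none, rfl⟩
      | cast i =>
        obtain ⟨x, hx⟩ := toSum_surjective k (Sum.inr i)
        exact ⟨some x, by show Sum.map id Fin.castSucc (toSum k x) = _; rw [hx]; rfl⟩

theorem iteratedCone_adj {V : Type} (G : SimpleGraph V) : ∀ (k : ℕ) (x y : ConeVertex V k),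
    (iteratedCone G k).Adj x y ↔ x ≠ y ∧
      ∀ u v, toSum k x = Sum.inl u → toSum k y = Sum.inl v → G.Adj u v
  | 0, x, y => by
    show G.Adj x y ↔ _
    constructor
    · intro h
      refine ⟨h.ne, fun u v hu hv => ?_⟩
      rw [← Sum.inl_injective hu, ← Sum.inl_injective hv]
      exact h
    · rintro ⟨-, h⟩
      exact h x y rfl rfl
  | k + 1, none, none => by
    show False ↔ _
    exact ⟨False.elim, fun h => absurd rfl h.1⟩
  | k + 1, none, some y => by
    show True ↔ _
    refine ⟨fun _ => ⟨fun h => ?_, fun u v hu _ => ?_⟩, fun _ => trivial⟩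
    · exact Option.some_ne_none y (Eq.symm h)
    · have h' : (Sum.inr (Fin.last k) : V ⊕ Fin (k + 1)) = Sum.inl u := hu
      cases h'
  | k + 1, some x, none => by
    show True ↔ _
    refine ⟨fun _ => ⟨fun h => ?_, fun u v _ hv => ?_⟩, fun _ => trivial⟩
    · exact Option.some_ne_none x h
    · have h' : (Sum.inr (Fin.last k) : V ⊕ Fin (k + 1)) = Sum.inl v := hv
      cases h'
  | k + 1, some x, some y => by
    show (iteratedCone G k).Adj x y ↔ _
    rw [iteratedCone_adj G k x y]
    have h1 : ∀ (z : ConeVertex V k) (u : V), toSum (k + 1) (some z : Option _) = Sum.inl u ↔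
        toSum k z = Sum.inl u := by
      intro z u
      show Sum.map id Fin.castSucc (toSum k z) = _ ↔ _
      rcases toSum k z with v | i <;> simp
    constructor
    · rintro ⟨h2, h3⟩
      exact ⟨fun h => h2 (Option.some_injective _ h),
        fun u v hu hv => h3 u v ((h1 x u).1 hu) ((h1 y v).1 hv)⟩
    · rintro ⟨h2, h3⟩
      exact ⟨fun h => h2 (by rw [h]),
        fun u v hu hv => h3 u v ((h1 x u).2 hu) ((h1 y v).2 hv)⟩

theorem exists_coneSet_of_map {s k : ℕ} (f : ConeVertex (Fin s ⊕ Fin s) k → Fin n)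
    (hf : Function.Injective f) :
    ∃ A B C : Finset (Fin n), Disjoint A B ∧ Disjoint A C ∧ Disjoint B C ∧
      A.card = s ∧ B.card = s ∧ C.card = k ∧
      Sym2.map f '' (iteratedCone (completeBipartiteGraph (Fin s) (Fin s)) k).edgeSet =
        coneSet A B C := by
  classical
  set e : ConeVertex (Fin s ⊕ Fin s) k ≃ (Fin s ⊕ Fin s) ⊕ Fin k :=
    Equiv.ofBijective (toSum k) ⟨toSum_injective k, toSum_surjective k⟩ with he
  set g : (Fin s ⊕ Fin s) ⊕ Fin k → Fin n := fun x => f (e.symm x) with hg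
  have hgi : Function.Injective g := hf.comp e.symm.injective
  have hfg : ∀ x, f x = g (toSum k x) := fun x => by
    show f x = f (e.symm (e x))
    rw [e.symm_apply_apply]
  refine ⟨univ.image (fun i : Fin s => g (Sum.inl (Sum.inl i))),
    univ.image (fun i : Fin s => g (Sum.inl (Sum.inr i))),
    univ.image (fun i : Fin k => g (Sum.inr i)), ?_, ?_, ?_, ?_, ?_, ?_, ?_⟩
  · rw [Finset.disjoint_left]
    intro v h1 h2
    rw [Finset.mem_image] at h1 h2
    obtain ⟨i, -, hi⟩ := h1
    obtain ⟨j, -, hj⟩ := h2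
    have := hgi (hi.trans hj.symm)
    simp at this
  · rw [Finset.disjoint_left]
    intro v h1 h2
    rw [Finset.mem_image] at h1 h2
    obtain ⟨i, -, hi⟩ := h1
    obtain ⟨j, -, hj⟩ := h2
    have := hgi (hi.trans hj.symm)
    simp at this
  · rw [Finset.disjoint_left]
    intro v h1 h2
    rw [Finset.mem_image] at h1 h2
    obtain ⟨i, -, hi⟩ := h1
    obtain ⟨j, -, hj⟩ := h2
    have := hgi (hi.trans hj.symm)
    simp at this
  · rw [Finset.card_image_of_injective _ (fun i j h => by simpa using hgi h)]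
    simp
  · rw [Finset.card_image_of_injective _ (fun i j h => by simpa using hgi h)]
    simp
  · rw [Finset.card_image_of_injective _ (fun i j h => by simpa using hgi h)]
    simp
  · set A := univ.image (fun i : Fin s => g (Sum.inl (Sum.inl i))) with hA
    set B := univ.image (fun i : Fin s => g (Sum.inl (Sum.inr i))) with hB
    set C := univ.image (fun i : Fin k => g (Sum.inr i)) with hC
    have hmA : ∀ x, g x ∈ A ↔ ∃ i, x = Sum.inl (Sum.inl i) := by
      intro x
      rw [hA, Finset.mem_image]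
      constructor
      · rintro ⟨i, -, h⟩
        exact ⟨i, (hgi h).symm⟩
      · rintro ⟨i, rfl⟩
        exact ⟨i, Finset.mem_univ _, rfl⟩
    have hmB : ∀ x, g x ∈ B ↔ ∃ i, x = Sum.inl (Sum.inr i) := by
      intro x
      rw [hB, Finset.mem_image]
      constructor
      · rintro ⟨i, -, h⟩
        exact ⟨i, (hgi h).symm⟩
      · rintro ⟨i, rfl⟩
        exact ⟨i, Finset.mem_univ _, rfl⟩
    have hmC : ∀ x, g x ∈ C ↔ ∃ i, x = Sum.inr i := by
      intro x
      rw [hC, Finset.mem_image]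
      constructor
      · rintro ⟨i, -, h⟩
        exact ⟨i, (hgi h).symm⟩
      · rintro ⟨i, rfl⟩
        exact ⟨i, Finset.mem_univ _, rfl⟩
    have hrange : ∀ v, v ∈ A ∪ B ∪ C ↔ ∃ x, v = g x := by
      intro v
      constructor
      · intro h
        simp only [Finset.mem_union] at h
        rcases h with (h | h) | h
        · obtain ⟨i, -, hi⟩ := Finset.mem_image.1 h
          exact ⟨_, hi.symm⟩
        · obtain ⟨i, -, hi⟩ := Finset.mem_image.1 h
          exact ⟨_, hi.symm⟩
        · obtain ⟨i, -, hi⟩ := Finset.mem_image.1 h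
          exact ⟨_, hi.symm⟩
      · rintro ⟨x, rfl⟩
        simp only [Finset.mem_union, hmA, hmB, hmC]
        rcases x with (i | i) | i <;> simp
    have hadj : ∀ x y : (Fin s ⊕ Fin s) ⊕ Fin k,
        s(g x, g y) ∈ coneSet A B C ↔ x ≠ y ∧ ∀ u v, x = Sum.inl u → y = Sum.inl v →
          (completeBipartiteGraph (Fin s) (Fin s)).Adj u v := by
      intro x y
      rw [mem_coneSet, hmA, hmA, hmB, hmB, hrange, hrange]
      have h0 : g x ≠ g y ↔ x ≠ y := hgi.ne_iff
      rw [h0]
      constructor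
      · rintro ⟨h1, -, h3, h4⟩
        refine ⟨h1, ?_⟩
        rintro (u | u) (v | v) rfl rfl
        · exact absurd ⟨⟨u, rfl⟩, ⟨v, rfl⟩⟩ h3
        · simp
        · simp
        · exact absurd ⟨⟨u, rfl⟩, ⟨v, rfl⟩⟩ h4
      · rintro ⟨h1, h2⟩
        refine ⟨h1, ⟨⟨x, rfl⟩, ⟨y, rfl⟩⟩, ?_, ?_⟩
        · rintro ⟨⟨i, rfl⟩, ⟨j, rfl⟩⟩
          have := h2 _ _ rfl rfl
          simp at this
        · rintro ⟨⟨i, rfl⟩, ⟨j, rfl⟩⟩
          have := h2 _ _ rfl rfl
          simp at this
    ext e'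
    induction e' using Sym2.ind with
    | _ i j =>
      constructor
      · rintro ⟨q, hq, hqe⟩
        induction q using Sym2.ind with
        | _ x y =>
          rw [SimpleGraph.mem_edgeSet, iteratedCone_adj] at hq
          rw [← hqe, Sym2.map_mk, hfg, hfg, hadj]
          refine ⟨fun h => hq.1 (toSum_injective k h), hq.2⟩
      · intro h
        have h1 := (mem_coneSet.1 h).2.1
        obtain ⟨x, hx⟩ := (hrange i).1 h1.1
        obtain ⟨y, hy⟩ := (hrange j).1 h1.2
        rw [hx, hy, hadj] at h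
        refine ⟨s(e.symm x, e.symm y), ?_, ?_⟩
        · rw [SimpleGraph.mem_edgeSet, iteratedCone_adj]
          have h2 : ∀ z, toSum k (e.symm z) = z := fun z => e.apply_symm_apply z
          refine ⟨fun h' => h.1 (e.symm.injective h'), ?_⟩
          rw [h2, h2]
          exact h.2
        · rw [Sym2.map_mk, hx, hy]

/-- The members of the family are sets `coneSet A B C`. -/
theorem exists_coneSet {X : Set (Sym2 (Fin n))} (hX : X ∈ coneFamily n d) :
    ∃ k ≤ d, ∃ A B C : Finset (Fin n), Disjoint A B ∧ Disjoint A C ∧ Disjoint B C ∧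
      A.card = d + 1 - k ∧ B.card = d + 1 - k ∧ C.card = k ∧ X = coneSet A B C := by
  obtain ⟨k, hk, f, hf, rfl⟩ := hX
  obtain ⟨A, B, C, h1, h2, h3, h4, h5, h6, h7⟩ := exists_coneSet_of_map f hf
  exact ⟨k, hk, A, B, C, h1, h2, h3, h4, h5, h6, h7⟩

end Pool.Agent.W5h1.Hyp
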