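import Mathlib

/-!
Definitions for the generic hyperconnectivity matroid of Kalai and for the matroids in which the
members of a family are circuits.
-/

set_option autoImplicit false

namespace Pool.Agent.W5h1.Hyp

/-- The edge set of the complete graph on `Fin n`: the unordered pairs of distinct vertices. -/
def edges (n : ℕ) : Set (Sym2 (Fin n)) := {e | ¬ e.IsDiag}

/-- The vector of the pair `ij`: its block at `i` is `p j`, its block at `j` is `- p i`, its other
blocks are zero. -/
def pairVec {n d : ℕ} (p : Fin n → Fin d → ℝ) (i j : Fin n) : Fin n → Fin d → ℝ :=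
  fun v => if v = i then p j else if v = j then - p i else 0

/-- The vector of the edge `e`, which is `ij` with `i < j`. -/
def vec {n d : ℕ} (p : Fin n → Fin d → ℝ) (e : Sym2 (Fin n)) : Fin n → Fin d → ℝ :=
  pairVec p e.inf e.sup

/-- The points `p 0, ..., p (n - 1)` of `ℝ ^ d` are generic: their coordinates are algebraically
independent over the rational numbers. -/
def Generic {n d : ℕ} (p : Fin n → Fin d → ℝ) : Prop :=
  AlgebraicIndependent ℚ (fun x : Fin n × Fin d => p x.1 x.2)

/-- The matroid on a finite set `E` represented by the vectors `v e`. -/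
noncomputable def linearMatroid {α V : Type} [Finite α] [AddCommGroup V] [Module ℝ V]
    (E : Set α) (v : α → V) : Matroid α :=
  (IndepMatroid.ofFinite (E := E) (Set.toFinite E)
    (fun I => I ⊆ E ∧ LinearIndepOn ℝ v I)
    ⟨Set.empty_subset _, linearIndepOn_empty ℝ v⟩
    (fun _ _ hJ hIJ => ⟨hIJ.trans hJ.1, hJ.2.mono hIJ⟩)
    (by
      intro I J hI hJ hlt
      by_contra hcon
      push Not at hcon
      have h1 : Submodule.span ℝ (v '' J) ≤ Submodule.span ℝ (v '' I) := by
        rw [Submodule.span_le]
        rintro _ ⟨e, he, rfl⟩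
        by_contra h2
        have h3 : e ∉ I := fun h => h2 (Submodule.subset_span ⟨e, h, rfl⟩)
        exact hcon e he h3 (Set.insert_subset (hJ.1 he) hI.1)
          ((linearIndepOn_insert h3).2 ⟨hI.2, h2⟩)
      have hfin : Module.Finite ℝ (Submodule.span ℝ (v '' I)) :=
        Module.Finite.span_of_finite ℝ (Set.toFinite _)
      have h4 := Submodule.finrank_mono h1
      have h5 : ∀ K : Set α, LinearIndepOn ℝ v K →
          Module.finrank ℝ (Submodule.span ℝ (v '' K)) = K.ncard := by
        intro K hK
        have : Fintype K := Fintype.ofFinite K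
        have h6 := finrank_span_eq_card hK
        rw [Set.image_eq_range, h6, Set.ncard_eq_toFinset_card', Set.toFinset_card]
      rw [h5 I hI.2, h5 J hJ.2] at h4
      omega)
    (fun _ hI => hI.1)).matroid

@[simp] theorem linearMatroid_E {α V : Type} [Finite α] [AddCommGroup V] [Module ℝ V]
    (E : Set α) (v : α → V) : (linearMatroid E v).E = E := rfl

theorem linearMatroid_indep {α V : Type} [Finite α] [AddCommGroup V] [Module ℝ V]
    {E : Set α} {v : α → V} {I : Set α} :
    (linearMatroid E v).Indep I ↔ I ⊆ E ∧ LinearIndepOn ℝ v I := Iff.rfl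

/-- The hyperconnectivity matroid of the points `p`: a set of edges of the complete graph is
independent if their vectors are linearly independent. For generic points this is the generic
`d`-hyperconnectivity matroid of Kalai. -/
noncomputable def hyper {n d : ℕ} (p : Fin n → Fin d → ℝ) : Matroid (Sym2 (Fin n)) :=
  linearMatroid (edges n) (vec p)

/-- The cone of the graph `G`: a new vertex `none` is joined to all vertices of `G`. -/
def cone {V : Type} (G : SimpleGraph V) : SimpleGraph (Option V) where
  Adj x y := match x, y with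
    | none, none => False
    | none, some _ => True
    | some _, none => True
    | some u, some v => G.Adj u v
  symm := ⟨by
    rintro (_ | u) (_ | v) h
    · exact h
    · trivial
    · trivial
    · exact SimpleGraph.Adj.symm (G := G) h⟩
  loopless := ⟨by
    rintro (_ | u) h
    · exact h
    · exact SimpleGraph.irrefl G h⟩

/-- The vertices of the `k`-fold cone of a graph with the vertices `V`. -/
def ConeVertex (V : Type) : ℕ → Type
  | 0 => V
  | k + 1 => Option (ConeVertex V k)

/-- The `k`-fold cone of a graph. -/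
def iteratedCone {V : Type} (G : SimpleGraph V) : (k : ℕ) → SimpleGraph (ConeVertex V k)
  | 0 => G
  | k + 1 => cone (iteratedCone G k)

/-- The edge sets of the subgraphs of the complete graph on `Fin n` which are isomorphic to `G`. -/
def copies (n : ℕ) {V : Type} (G : SimpleGraph V) : Set (Set (Sym2 (Fin n))) :=
  {X | ∃ f : V → Fin n, Function.Injective f ∧ X = Sym2.map f '' G.edgeSet}

/-- The family `𝒳_d`: the copies in the complete graph on `Fin n` of the `k`-fold cones of the
complete bipartite graphs `K_{d+1-k,d+1-k}`, for `k = 0, ..., d`. -/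
def coneFamily (n d : ℕ) : Set (Set (Sym2 (Fin n))) :=
  {X | ∃ k ≤ d, X ∈ copies n
    (iteratedCone (completeBipartiteGraph (Fin (d + 1 - k)) (Fin (d + 1 - k))) k)}

/-- An `𝒳`-matroid on the edge set of the complete graph: all members of `𝒳` are circuits. -/
def IsXMatroid {n : ℕ} (𝒳 : Set (Set (Sym2 (Fin n)))) (M : Matroid (Sym2 (Fin n))) : Prop :=
  M.E = edges n ∧ ∀ X ∈ 𝒳, M.IsCircuit X

/-- A maximal `𝒳`-matroid: no other `𝒳`-matroid has all its independent sets. -/
def IsMaximalXMatroid {n : ℕ} (𝒳 : Set (Set (Sym2 (Fin n)))) (M : Matroid (Sym2 (Fin n))) :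
    Prop :=
  IsXMatroid 𝒳 M ∧ ∀ N, IsXMatroid 𝒳 N → (∀ I, M.Indep I → N.Indep I) → N = M

/-- A proper `𝒳`-sequence `X 0, ..., X (k - 1)`: members of `𝒳`, and those after the first one are
not contained in the union of the preceding ones. -/
def IsProperSequence {n : ℕ} (𝒳 : Set (Set (Sym2 (Fin n)))) (k : ℕ)
    (X : Fin k → Set (Sym2 (Fin n))) : Prop :=
  (∀ i, X i ∈ 𝒳) ∧ ∀ i : Fin k, 0 < i.val → ¬ X i ⊆ ⋃ j : Fin k, ⋃ _ : j < i, X j

/-- `val_𝒳(F)`: the minimum of `|F ∪ X 0 ∪ ... ∪ X (k - 1)| - k` over all proper
`𝒳`-sequences. -/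
noncomputable def val {n : ℕ} (𝒳 : Set (Set (Sym2 (Fin n)))) (F : Set (Sym2 (Fin n))) : ℤ :=
  sInf {m : ℤ | ∃ (k : ℕ) (X : Fin k → Set (Sym2 (Fin n))), IsProperSequence 𝒳 k X ∧
    m = ((F ∪ ⋃ i, X i).ncard : ℤ) - (k : ℤ)}

end Pool.Agent.W5h1.Hyp
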