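import Pool.Agent.W5h1.Hyp.Defs

set_option autoImplicit false

namespace Pool.Agent.W5h1.Hyp

open Cardinal

/-- There are generic points. -/
theorem exists_generic (n d : ℕ) : ∃ p : Fin n → Fin d → ℝ, Generic p := by
  obtain ⟨s, hs⟩ := exists_isTranscendenceBasis ℚ ℝ
  have hinf : Infinite s := by
    by_contra hfin
    rw [not_infinite_iff_finite] at hfin
    have h0 := hs.isAlgebraic
    have h1 : #ℝ ≤ max #(Algebra.adjoin ℚ (Set.range ((↑) : s → ℝ))) ℵ₀ :=
      Algebra.IsAlgebraic.cardinalMk_le_max _ _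
    have h2 : #(Algebra.adjoin ℚ (Set.range ((↑) : s → ℝ))) = #(MvPolynomial s ℚ) :=
      (Cardinal.mk_congr hs.1.aevalEquiv.toEquiv).symm
    have h3 : #(MvPolynomial s ℚ) ≤ ℵ₀ := by
      refine (MvPolynomial.cardinalMk_le_max (σ := s) (R := ℚ)).trans ?_
      simp [Cardinal.mk_le_aleph0]
    have h4 : #ℝ ≤ ℵ₀ := h1.trans (by rw [h2]; exact max_le h3 le_rfl)
    rw [Cardinal.mk_real] at h4
    exact absurd h4 (not_le.2 Cardinal.aleph0_lt_continuum)
  obtain ⟨f⟩ : Nonempty (Fin n × Fin d ↪ s) :=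
    ⟨(Fintype.equivFin (Fin n × Fin d)).toEmbedding.trans
      (Fin.valEmbedding.trans (Infinite.natEmbedding s))⟩
  exact ⟨fun i k => (f (i, k) : ℝ), hs.1.comp f f.injective⟩

end Pool.Agent.W5h1.Hyp
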