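import Pool.Agent.W5h1.Hyp.Tri

set_option autoImplicit false

namespace Pool.Agent.W5h1.Hyp

open Finset

variable {n d : ℕ}

theorem exists_combination {p : Fin n → Fin d → ℝ} {T : Finset (Fin n)} (hf : Free p T)
    (hT : T.card = d) (g : Fin d → ℝ) :
    ∃ b : Fin n → ℝ, (∀ v, v ∉ T → b v = 0) ∧ ∑ v, b v • p v = g := by
  classical
  have h1 := (free_iff.1 hf).span_eq_top_of_card_eq_finrank' (by simp [hT])
  have h2 : g ∈ Submodule.span ℝ (Set.range fun v : T => p v) := by rw [h1]; trivial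
  rw [Submodule.mem_span_range_iff_exists_fun] at h2
  obtain ⟨c, hc⟩ := h2
  refine ⟨fun v => if hv : v ∈ T then c ⟨v, hv⟩ else 0, fun v hv => by simp [hv], ?_⟩
  rw [← hc, ← Finset.sum_subset (Finset.subset_univ T) (fun v _ hv => by simp [hv]),
    ← Finset.sum_coe_sort T]
  refine Finset.sum_congr rfl fun v _ => ?_
  simp

/-- The three parts. -/
structure Parts (d : ℕ) {n : ℕ} (V₁ V₂ V₃ : Finset (Fin n)) : Prop where
  d12 : Disjoint V₁ V₂
  d13 : Disjoint V₁ V₃
  d23 : Disjoint V₂ V₃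
  c1 : V₁.card = d
  c2 : V₂.card = d - 2
  c3 : V₃.card = 3

theorem exists_triData {p : Fin n → Fin d → ℝ}
    (hf : ∀ T : Finset (Fin n), T.card ≤ d → Free p T) (hd : 5 ≤ d) {V₁ V₂ V₃ : Finset (Fin n)}
    (hV : Parts d V₁ V₂ V₃) : ∃ b c₂ c₃ g, TriData p V₁ V₂ V₃ b c₂ c₃ g := by
  classical
  obtain ⟨h12, h13, h23, k1, k2, k3⟩ := hV
  have hc : (V₂ ∪ V₃).card = d + 1 := by
    rw [Finset.card_union_of_disjoint h23, k2, k3]; omega
  obtain ⟨c, hc⟩ := exists_dep hf hc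
  set c₂ : Fin n → ℝ := fun v => if v ∈ V₂ then - c v else 0 with hc2
  set c₃ : Fin n → ℝ := fun v => if v ∈ V₃ then c v else 0 with hc3
  have h23' : ∀ v, v ∈ V₂ → v ∉ V₃ := fun v h' => Finset.disjoint_left.1 h23 h'
  have hcv : ∀ v, c v = c₃ v - c₂ v := by
    intro v
    by_cases h2 : v ∈ V₂
    · simp [hc2, hc3, h2, h23' v h2]
    · by_cases h3 : v ∈ V₃
      · simp [hc2, hc3, h2, h3]
      · simp [hc2, hc3, h2, h3, hc.zero]
  have hsum : ∑ v, c₂ v • p v = ∑ v, c₃ v • p v := by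
    have h1 := hc.2.1
    rw [Finset.sum_congr rfl (fun v _ => by rw [hcv v])] at h1
    simp only [sub_smul, Finset.sum_sub_distrib] at h1
    exact (sub_eq_zero.1 h1).symm
  have hf1 : Free p V₁ := hf V₁ k1.le
  obtain ⟨b, hb, hbs⟩ := exists_combination hf1 k1 (∑ v, c₃ v • p v)
  refine ⟨b, c₂, c₃, ∑ v, c₃ v • p v, ?_⟩
  refine ⟨h12, h13, h23, ?_, ?_, hb, ?_, ?_, hbs, hsum, rfl, hf1, ?_, ?_⟩
  · rw [← Finset.card_pos]; omega
  · rw [← Finset.card_pos]; omega
  · intro v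
    by_cases h2 : v ∈ V₂
    · simp only [hc2, h2, if_true, ne_eq, neg_eq_zero, iff_true]
      exact (hc.1 v).2 (Finset.mem_union_left _ h2)
    · simp [hc2, h2]
  · intro v
    by_cases h3 : v ∈ V₃
    · simp only [hc3, h3, if_true, iff_true]
      exact (hc.1 v).2 (Finset.mem_union_right _ h3)
    · simp [hc3, h3]
  · exact hf V₃ (by omega)
  · intro z hz hzs
    obtain ⟨t, ht⟩ := hc.2.2 z (fun v hv => by
      simp only [Finset.mem_union, not_or] at hv
      exact hz v hv.1 hv.2) hzs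
    exact ⟨t, fun v => by rw [ht v, hcv v]⟩

/-- Moving one point of the first part makes the coefficients in the first part nonzero. -/
theorem TriData.modify {p : Fin n → Fin d → ℝ} {V₁ V₂ V₃ : Finset (Fin n)}
    {b c₂ c₃ : Fin n → ℝ} {g : Fin d → ℝ} (h : TriData p V₁ V₂ V₃ b c₂ c₃ g) :
    ∃ (p' : Fin n → Fin d → ℝ) (b' : Fin n → ℝ), TriData p' V₁ V₂ V₃ b' c₂ c₃ g ∧
      ∀ v ∈ V₁, b' v ≠ 0 := by
  classical
  have h12 : ∀ v, v ∈ V₁ → v ∉ V₂ := fun v h' => Finset.disjoint_left.1 h.d12 h'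
  have h13 : ∀ v, v ∈ V₁ → v ∉ V₃ := fun v h' => Finset.disjoint_left.1 h.d13 h'
  obtain ⟨v0, hv0⟩ : ∃ v0, b v0 ≠ 0 := by
    by_contra hcon
    push Not at hcon
    apply h.g_ne
    rw [← h.sb]
    exact Finset.sum_eq_zero fun v _ => by rw [hcon v, zero_smul]
  have hv01 : v0 ∈ V₁ := by
    by_contra h1
    exact hv0 (h.hb v0 h1)
  set b' : Fin n → ℝ := fun v => if v ∈ V₁ then 1 else 0 with hb'
  have hb'0 : b' v0 = 1 := by simp [hb', hv01]
  set q : Fin d → ℝ := g - ∑ v ∈ univ.erase v0, b' v • p v with hq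
  refine ⟨Function.update p v0 q, b', ?_, fun v hv => by simp [hb', hv]⟩
  refine ⟨h.d12, h.d13, h.d23, h.ne2, h.ne3, fun v hv => by simp [hb', hv], h.hc2, h.hc3,
    ?_, ?_, ?_, ?_, h.f3.update (h13 v0 hv01) q, ?_⟩
  · rw [sum_update, hb'0, one_smul, hq]
    abel
  · rw [sum_update_of_zero _ _ _ _ (h.c2_zero (h12 v0 hv01)), h.s2]
  · rw [sum_update_of_zero _ _ _ _ (h.c3_zero (h13 v0 hv01)), h.s3]
  · intro z hz hzs
    rw [sum_update] at hzs
    set w : Fin n → ℝ := fun v => if v = v0 then z v0 * b v0 else z v + z v0 * (b v - b' v)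
      with hw
    have hw0 := h.f1 w (fun v hv => by
      have h1 : v ≠ v0 := fun h' => hv (h' ▸ hv01)
      simp [hw, h1, hz v hv, h.hb v hv, hb', hv]) (by
      rw [← Finset.add_sum_erase _ _ (Finset.mem_univ v0)]
      have h1 : ∑ v ∈ univ.erase v0, w v • p v = ∑ v ∈ univ.erase v0, z v • p v +
          z v0 • (∑ v ∈ univ.erase v0, b v • p v - ∑ v ∈ univ.erase v0, b' v • p v) := by
        rw [← Finset.sum_sub_distrib, Finset.smul_sum, ← Finset.sum_add_distrib]
        refine Finset.sum_congr rfl fun v hv => ?_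
        have h2 : v ≠ v0 := Finset.ne_of_mem_erase hv
        simp only [hw, h2, if_false]
        module
      have h3 : g = b v0 • p v0 + ∑ v ∈ univ.erase v0, b v • p v := by
        rw [← h.sb, ← Finset.add_sum_erase _ _ (Finset.mem_univ v0)]
      have h4 : w v0 = z v0 * b v0 := by simp [hw]
      rw [h1, h4]
      rw [hq, h3] at hzs
      rw [← hzs]
      module)
    have h5 : z v0 = 0 := by
      have h6 := congrFun hw0 v0
      simp only [hw, if_true, Pi.zero_apply] at h6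
      rcases mul_eq_zero.1 h6 with h7 | h7
      · exact h7
      · exact absurd h7 hv0
    funext v
    by_cases h7 : v = v0
    · rw [h7, h5]; rfl
    · have h6 := congrFun hw0 v
      simp only [hw, h7, if_false, h5, Pi.zero_apply] at h6
      simp only [Pi.zero_apply]
      linarith
  · intro z hz hzs
    rw [sum_update_of_zero _ _ _ _ (hz v0 (h12 v0 hv01) (h13 v0 hv01))] at hzs
    exact h.dep z hz hzs

theorem tri_not_indep {p : Fin n → Fin d → ℝ} (hp : Generic p) (hd : 5 ≤ d)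
    {V₁ V₂ V₃ : Finset (Fin n)} (hV : Parts d V₁ V₂ V₃) :
    ¬ LinearIndepOn ℝ (vec p) (triSet V₁ V₂ V₃) := by
  obtain ⟨b, c₂, c₃, g, h⟩ := exists_triData (fun T hT => free_of_generic hp hT) hd hV
  exact h.not_indep

theorem tri_minus_indep {p : Fin n → Fin d → ℝ} (hp : Generic p) (hd : 5 ≤ d)
    {V₁ V₂ V₃ : Finset (Fin n)} (hV : Parts d V₁ V₂ V₃) {e : Sym2 (Fin n)}
    (he : e ∈ triSet V₁ V₂ V₃) : LinearIndepOn ℝ (vec p) (triSet V₁ V₂ V₃ \ {e}) := by
  obtain ⟨b, c₂, c₃, g, h⟩ := exists_triData (fun T hT => free_of_generic hp hT) hd hV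
  obtain ⟨p', b', h', hb'⟩ := h.modify
  exact linearIndepOn_of_generic hp (h'.minus_indep hb' he)

/-! ### The tripartite graph is closed -/

theorem sum_pairVec (p : Fin n → Fin d → ℝ) (m : Fin n → (Fin d → ℝ) →ₗ[ℝ] ℝ) {i j : Fin n}
    (hij : i ≠ j) : ∑ v, m v (pairVec p i j v) = m i (p j) - m j (p i) := by
  classical
  have h1 : ∀ v, m v (pairVec p i j v) =
      (if v = i then m i (p j) else 0) + (if v = j then - m j (p i) else 0) := by
    intro v
    unfold pairVec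
    by_cases h1 : v = i
    · subst h1; simp [hij]
    · by_cases h2 : v = j
      · subst h2; simp [h1]
      · simp [h1, h2]
  rw [Finset.sum_congr rfl (fun v _ => h1 v), Finset.sum_add_distrib]
  simp only [Finset.sum_ite_eq', Finset.mem_univ, if_true]
  ring

theorem sum_vec_eq (p : Fin n → Fin d → ℝ) (m : Fin n → (Fin d → ℝ) →ₗ[ℝ] ℝ) {i j : Fin n}
    (hij : i ≠ j) : ∑ v, m v (vec p s(i, j) v) = m i (p j) - m j (p i) ∨
      ∑ v, m v (vec p s(i, j) v) = m j (p i) - m i (p j) := by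
  rcases lt_or_gt_of_ne hij with h | h
  · left
    have : vec p s(i, j) = pairVec p i j := by
      simp only [vec, Sym2.inf_mk, Sym2.sup_mk, inf_eq_left.2 h.le, sup_eq_right.2 h.le]
    rw [this, sum_pairVec p m hij]
  · right
    have : vec p s(i, j) = pairVec p j i := by
      simp only [vec, Sym2.inf_mk, Sym2.sup_mk, inf_eq_right.2 h.le, sup_eq_left.2 h.le]
    rw [this, sum_pairVec p m hij.symm]

/-- A motion which preserves the edges of `S` but not the edge `ij` shows that the vector of `ij`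
is not in the span of the vectors of `S`. -/
theorem notMem_span_of_motion {p : Fin n → Fin d → ℝ} {S : Set (Sym2 (Fin n))}
    (hS : S ⊆ edges n) (m : Fin n → (Fin d → ℝ) →ₗ[ℝ] ℝ)
    (hm : ∀ v w, s(v, w) ∈ S → m v (p w) = m w (p v)) {i j : Fin n} (hij : i ≠ j)
    (hne : m i (p j) ≠ m j (p i)) : vec p s(i, j) ∉ Submodule.span ℝ (vec p '' S) := by
  classical
  set L : (Fin n → Fin d → ℝ) →ₗ[ℝ] ℝ :=
    ∑ v, (m v).comp (LinearMap.proj v) with hL
  have hLa : ∀ u, L u = ∑ v, m v (u v) := fun u => by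
    simp [hL, LinearMap.sum_apply]
  have h1 : Submodule.span ℝ (vec p '' S) ≤ LinearMap.ker L := by
    rw [Submodule.span_le]
    rintro _ ⟨e, he, rfl⟩
    induction e using Sym2.ind with
    | _ v w =>
      have hvw : v ≠ w := by
        have := hS he
        intro h
        apply this
        rw [h]
        exact Sym2.mk_isDiag_iff.2 rfl
      show L (vec p s(v, w)) = 0
      rw [hLa]
      have h2 := hm v w he
      rcases sum_vec_eq p m hvw with h3 | h3
      · rw [h3, h2, sub_self]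
      · rw [h3, h2, sub_self]
  intro h2
  have h3 : L (vec p s(i, j)) = 0 := h1 h2
  rw [hLa] at h3
  rcases sum_vec_eq p m hij with h4 | h4
  · rw [h4, sub_eq_zero] at h3
    exact hne h3
  · rw [h4, sub_eq_zero] at h3
    exact hne h3.symm

theorem exists_functional {p : Fin n → Fin d → ℝ} {T : Finset (Fin n)} (hf : Free p T)
    {i : Fin n} (hi : i ∈ T) :
    ∃ α : (Fin d → ℝ) →ₗ[ℝ] ℝ, α (p i) ≠ 0 ∧ ∀ v ∈ T, v ≠ i → α (p v) = 0 := by
  have h1 := (free_iff.1 hf).notMem_span_image (s := {v : T | v.1 ≠ i}) (x := ⟨i, hi⟩)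
    (by simp)
  obtain ⟨α, hα, hα2⟩ := Submodule.exists_dual_map_eq_bot_of_notMem h1 inferInstance
  refine ⟨α, hα, fun v hv hvi => ?_⟩
  have h2 : α (p v) ∈ Submodule.map α
      (Submodule.span ℝ ((fun v : T => p v) '' {v : T | v.1 ≠ i})) :=
    Submodule.mem_map_of_mem (Submodule.subset_span ⟨⟨v, hv⟩, hvi, rfl⟩)
  rw [hα2] at h2
  exact (Submodule.mem_bot ℝ).1 h2

theorem tri_flat_inside {p : Fin n → Fin d → ℝ} {V₁ V₂ V₃ : Finset (Fin n)}
    (h12 : Disjoint V₁ V₂) (h13 : Disjoint V₁ V₃)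
    (U : Finset (Fin n)) (hU : U = V₂ ∨ U = V₃) {i j : Fin n}
    (hij : i ≠ j) (hin : (i ∈ V₁ ∧ j ∈ V₁) ∨ (i ∈ V₂ ∧ j ∈ V₂) ∨ (i ∈ V₃ ∧ j ∈ V₃))
    (hiU : i ∉ U) (hjU : j ∉ U) (hf : Free p (insert i (insert j U))) :
    vec p s(i, j) ∉ Submodule.span ℝ (vec p '' triSet V₁ V₂ V₃) := by
  classical
  have h12' : ∀ v, v ∈ V₁ → v ∉ V₂ := fun v h' => Finset.disjoint_left.1 h12 h'
  have h13' : ∀ v, v ∈ V₁ → v ∉ V₃ := fun v h' => Finset.disjoint_left.1 h13 h'
  obtain ⟨α, hα1, hα2⟩ := exists_functional hf (i := i) (by simp)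
  obtain ⟨β, hβ1, hβ2⟩ := exists_functional hf (i := j) (by simp)
  have hαj : α (p j) = 0 := hα2 j (by simp) hij.symm
  have hβi : β (p i) = 0 := hβ2 i (by simp) hij
  have hαU : ∀ v ∈ U, α (p v) = 0 := fun v hv =>
    hα2 v (by simp [hv]) (fun h => hiU (h ▸ hv))
  have hβU : ∀ v ∈ U, β (p v) = 0 := fun v hv =>
    hβ2 v (by simp [hv]) (fun h => hjU (h ▸ hv))
  set m : Fin n → (Fin d → ℝ) →ₗ[ℝ] ℝ := fun v =>
    if v ∈ V₁ then β (p v) • α else if v ∈ V₂ ∪ V₃ then α (p v) • β else 0 with hm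
  have hm1 : ∀ v ∈ V₁, ∀ y, m v y = β (p v) * α y := fun v hv y => by simp [hm, hv]
  have hm23 : ∀ v, v ∈ V₂ ∨ v ∈ V₃ → ∀ y, m v y = α (p v) * β y := fun v hv y => by
    have h1 : v ∉ V₁ := fun h => by
      rcases hv with hv | hv
      · exact h12' v h hv
      · exact h13' v h hv
    simp [hm, h1, hv]
  refine notMem_span_of_motion (triSet_subset_edges _ _ _) m ?_ hij ?_
  · intro v w hvw
    rw [mem_triSet] at hvw
    obtain ⟨⟨hv, hw⟩, n1, n2, n3⟩ := hvw
    simp only [Finset.mem_union] at hv hw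
    have hout : ∀ u, (u ∈ V₁ ∨ u ∈ V₂) ∨ u ∈ V₃ → u ∉ V₁ → u ∈ V₂ ∨ u ∈ V₃ := by
      rintro u ((h | h) | h) h'
      · exact absurd h h'
      · exact Or.inl h
      · exact Or.inr h
    by_cases hv1 : v ∈ V₁
    · have hw1 : w ∉ V₁ := fun h => n1 ⟨hv1, h⟩
      rw [hm1 v hv1, hm23 w (hout w hw hw1)]
      ring
    by_cases hw1 : w ∈ V₁
    · rw [hm1 w hw1, hm23 v (hout v hv hv1)]
      ring
    have hv' := hout v hv hv1
    have hw' := hout w hw hw1
    rw [hm23 v hv', hm23 w hw']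
    have h1 : v ∈ U ∨ w ∈ U := by
      clear_value m
      clear hm1 hm23 hm hαU hβU hα1 hα2 hβ1 hβ2 hαj hβi hin hiU hjU hf hv hw
      rcases hU with rfl | rfl
      · rcases hv' with h | h
        · exact Or.inl h
        · rcases hw' with h' | h'
          · exact Or.inr h'
          · exact absurd ⟨h, h'⟩ n3
      · rcases hv' with h | h
        · rcases hw' with h' | h'
          · exact absurd ⟨h, h'⟩ n2
          · exact Or.inr h'
        · exact Or.inl h
    rcases h1 with h1 | h1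
    · rw [hαU v h1, hβU v h1]; ring
    · rw [hαU w h1, hβU w h1]; ring
  · rcases hin with ⟨hi, hj⟩ | ⟨hi, hj⟩ | ⟨hi, hj⟩
    · rw [hm1 i hi, hm1 j hj, hβi, zero_mul]
      exact (mul_ne_zero hβ1 hα1).symm
    · rw [hm23 i (Or.inl hi), hm23 j (Or.inl hj), hαj, zero_mul]
      exact mul_ne_zero hα1 hβ1
    · rw [hm23 i (Or.inr hi), hm23 j (Or.inr hj), hαj, zero_mul]
      exact mul_ne_zero hα1 hβ1

theorem tri_flat_outside {p : Fin n → Fin d → ℝ} {V₁ V₂ V₃ : Finset (Fin n)} {i j : Fin n}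
    (hij : i ≠ j) (hi : i ∉ V₁ ∪ V₂ ∪ V₃) (hf : Free p {j}) :
    vec p s(i, j) ∉ Submodule.span ℝ (vec p '' triSet V₁ V₂ V₃) := by
  classical
  obtain ⟨α, hα1, -⟩ := exists_functional hf (i := j) (by simp)
  refine notMem_span_of_motion (triSet_subset_edges _ _ _)
    (fun v => if v = i then α else 0) ?_ hij ?_
  · intro v w hvw
    rw [mem_triSet] at hvw
    have h1 : v ≠ i := fun h => hi (h ▸ hvw.1.1)
    have h2 : w ≠ i := fun h => hi (h ▸ hvw.1.2)
    simp [h1, h2]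
  · simp [hij.symm, hα1]

/-- The vector of an edge outside the tripartite graph is not in its span. -/
theorem tri_flat {p : Fin n → Fin d → ℝ} (hp : Generic p) (hd : 5 ≤ d)
    {V₁ V₂ V₃ : Finset (Fin n)} (hV : Parts d V₁ V₂ V₃) {e : Sym2 (Fin n)} (he : e ∈ edges n)
    (he' : e ∉ triSet V₁ V₂ V₃) :
    vec p e ∉ Submodule.span ℝ (vec p '' triSet V₁ V₂ V₃) := by
  classical
  have hf : ∀ T : Finset (Fin n), T.card ≤ d → Free p T := fun T hT => free_of_generic hp hT
  obtain ⟨h12, h13, h23, k1, k2, k3⟩ := hV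
  have h12' : ∀ v, v ∈ V₁ → v ∉ V₂ := fun v h' => Finset.disjoint_left.1 h12 h'
  have h13' : ∀ v, v ∈ V₁ → v ∉ V₃ := fun v h' => Finset.disjoint_left.1 h13 h'
  have h23' : ∀ v, v ∈ V₂ → v ∉ V₃ := fun v h' => Finset.disjoint_left.1 h23 h'
  induction e using Sym2.ind with
  | _ i j =>
    have hij : i ≠ j := fun h => he (by rw [h]; exact Sym2.mk_isDiag_iff.2 rfl)
    have h1 : ∀ v : Fin n, Free p {v} := fun v => hf _ (by simp; omega)
    by_cases hi : i ∈ V₁ ∪ V₂ ∪ V₃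
    · by_cases hj : j ∈ V₁ ∪ V₂ ∪ V₃
      · rw [mem_triSet] at he'
        have hcard : ∀ U : Finset (Fin n), U.card ≤ d - 2 →
            (insert i (insert j U)).card ≤ d := by
          intro U hU
          have h2 := Finset.card_insert_le i (insert j U)
          have h3 := Finset.card_insert_le j U
          omega
        by_cases hin1 : i ∈ V₁ ∧ j ∈ V₁
        · exact tri_flat_inside h12 h13 V₂ (Or.inl rfl) hij (Or.inl hin1)
            (h12' i hin1.1) (h12' j hin1.2) (hf _ (hcard _ k2.le))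
        by_cases hin2 : i ∈ V₂ ∧ j ∈ V₂
        · exact tri_flat_inside h12 h13 V₃ (Or.inr rfl) hij (Or.inr (Or.inl hin2))
            (h23' i hin2.1) (h23' j hin2.2) (hf _ (hcard _ (by omega)))
        have hin3 : i ∈ V₃ ∧ j ∈ V₃ := by tauto
        exact tri_flat_inside h12 h13 V₂ (Or.inl rfl) hij (Or.inr (Or.inr hin3))
            (fun h => h23' i h hin3.1) (fun h => h23' j h hin3.2) (hf _ (hcard _ k2.le))
      · rw [Sym2.eq_swap]
        exact tri_flat_outside hij.symm hj (h1 i)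
    · exact tri_flat_outside hij hi (h1 j)

end Pool.Agent.W5h1.Hyp
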