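import Pool.Agent.W5h1.Hyp.Stress

set_option autoImplicit false

namespace Pool.Agent.W5h1.Hyp

open Finset

/-- Rows with polynomial entries which are linearly independent at some real point are linearly
independent at every algebraically independent point. -/
theorem linearIndependent_of_generic {ι κ σ : Type} [Fintype ι] [Fintype κ] [DecidableEq ι]
    (M : ι → κ → MvPolynomial σ ℚ) {x x' : σ → ℝ} (hx : AlgebraicIndependent ℚ x)
    (h : LinearIndependent ℝ (fun i k => MvPolynomial.aeval x' (M i k))) :
    LinearIndependent ℝ (fun i k => MvPolynomial.aeval x (M i k)) := by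
  set P : MvPolynomial σ ℚ := ((Matrix.of M) * (Matrix.of M).transpose).det with hP
  have hdet : ∀ y : σ → ℝ, MvPolynomial.aeval y P =
      ((Matrix.of fun i k => MvPolynomial.aeval y (M i k)) *
        (Matrix.of fun i k => MvPolynomial.aeval y (M i k)).transpose).det := by
    intro y
    rw [hP, AlgHom.map_det]
    congr 1
    ext i j
    simp [Matrix.mul_apply, AlgHom.mapMatrix_apply, Matrix.map_apply]
  have h1 : MvPolynomial.aeval x' P ≠ 0 := by
    rw [hdet]
    intro h0
    obtain ⟨v, hv0, hv⟩ := Matrix.exists_vecMul_eq_zero_iff.2 h0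
    set A : Matrix ι κ ℝ := Matrix.of fun i k => MvPolynomial.aeval x' (M i k) with hA
    have h2 : Matrix.vecMul v A = 0 := by
      have h3 : Matrix.vecMul v A ⬝ᵥ Matrix.vecMul v A = 0 := by
        have h4 : Matrix.vecMul v (A * A.transpose) ⬝ᵥ v = 0 := by rw [hv]; simp
        rw [← Matrix.vecMul_vecMul, Matrix.vecMul_transpose] at h4
        rw [dotProduct_comm, Matrix.dotProduct_mulVec] at h4
        exact h4
      exact dotProduct_self_eq_zero.1 h3
    rw [Fintype.linearIndependent_iff] at h
    apply hv0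
    funext i
    refine h v ?_ i
    funext k
    have := congrFun h2 k
    simp only [Matrix.vecMul, dotProduct] at this
    simpa [hA] using this
  have h2 : MvPolynomial.aeval x P ≠ 0 := by
    intro h0
    have h3 : P = 0 := by
      apply hx
      rw [h0, map_zero]
    rw [h3, map_zero] at h1
    exact h1 rfl
  rw [hdet] at h2
  rw [Fintype.linearIndependent_iff]
  intro g hg i
  by_contra hgi
  apply h2
  rw [← Matrix.exists_vecMul_eq_zero_iff]
  refine ⟨g, fun h => hgi (by rw [h]; rfl), ?_⟩
  rw [← Matrix.vecMul_vecMul]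
  have h5 : Matrix.vecMul g (Matrix.of fun i k => MvPolynomial.aeval x (M i k)) = 0 := by
    funext k
    have := congrFun hg k
    simp only [Matrix.vecMul, dotProduct]
    simpa using this
  rw [h5, Matrix.zero_vecMul]

variable {n d : ℕ}

/-- The polynomial entries of the vector of an edge. -/
noncomputable def vecPoly (e : Sym2 (Fin n)) (k : Fin n × Fin d) :
    MvPolynomial (Fin n × Fin d) ℚ :=
  if k.1 = e.inf then MvPolynomial.X (e.sup, k.2)
  else if k.1 = e.sup then - MvPolynomial.X (e.inf, k.2) else 0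

theorem aeval_vecPoly (p : Fin n → Fin d → ℝ) (e : Sym2 (Fin n)) (k : Fin n × Fin d) :
    MvPolynomial.aeval (fun x : Fin n × Fin d => p x.1 x.2) (vecPoly e k) =
      vec p e k.1 k.2 := by
  unfold vecPoly vec pairVec
  split_ifs <;> simp

theorem linearIndepOn_vec_iff (p : Fin n → Fin d → ℝ) (S : Set (Sym2 (Fin n))) :
    LinearIndepOn ℝ (vec p) S ↔
      LinearIndependent ℝ (fun (e : S) (k : Fin n × Fin d) => vec p e k.1 k.2) := by
  unfold LinearIndepOn
  rw [← LinearMap.linearIndependent_iff (LinearEquiv.curry ℝ ℝ (Fin n) (Fin d)).symm.toLinearMap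
    (LinearEquiv.ker _)]
  rfl

/-- A set of edges which is independent for some real points is independent for generic
points. -/
theorem linearIndepOn_of_generic {p p' : Fin n → Fin d → ℝ} (hp : Generic p)
    {S : Set (Sym2 (Fin n))} (h : LinearIndepOn ℝ (vec p') S) : LinearIndepOn ℝ (vec p) S := by
  classical
  rw [linearIndepOn_vec_iff] at h ⊢
  have : Fintype S := Fintype.ofFinite S
  have h1 := linearIndependent_of_generic (fun (e : S) (k : Fin n × Fin d) => vecPoly e.1 k)
    (x := fun x : Fin n × Fin d => p x.1 x.2) (x' := fun x : Fin n × Fin d => p' x.1 x.2) hp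
    (by simpa only [aeval_vecPoly] using h)
  simpa only [aeval_vecPoly] using h1

/-- The points `p v`, `v ∈ T`, are linearly independent. -/
def Free (p : Fin n → Fin d → ℝ) (T : Finset (Fin n)) : Prop :=
  ∀ z : Fin n → ℝ, (∀ v, v ∉ T → z v = 0) → ∑ v, z v • p v = 0 → z = 0

theorem Free.mono {p : Fin n → Fin d → ℝ} {S T : Finset (Fin n)} (h : Free p T) (hST : S ⊆ T) :
    Free p S :=
  fun z hz hs => h z (fun v hv => hz v (fun h' => hv (hST h'))) hs

theorem free_iff {p : Fin n → Fin d → ℝ} {T : Finset (Fin n)} :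
    Free p T ↔ LinearIndependent ℝ (fun v : T => p v) := by
  classical
  rw [Fintype.linearIndependent_iff]
  constructor
  · intro h g hg v
    have h1 := h (fun v => if hv : v ∈ T then g ⟨v, hv⟩ else 0) (fun v hv => by simp [hv]) (by
      rw [← hg, ← Finset.sum_subset (Finset.subset_univ T) (fun v _ hv => by simp [hv]),
        ← Finset.sum_coe_sort T]
      refine Finset.sum_congr rfl fun v _ => ?_
      simp)
    have := congrFun h1 v
    simpa using this
  · intro h z hz hs
    funext v
    by_cases hv : v ∈ T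
    · refine h (fun v => z v) ?_ ⟨v, hv⟩
      rw [← hs, ← Finset.sum_subset (Finset.subset_univ T) (fun v _ hv => by simp [hz v hv]),
        ← Finset.sum_coe_sort T]
    · exact hz v hv

/-- Generic points are in general position. -/
theorem free_of_generic {p : Fin n → Fin d → ℝ} (hp : Generic p) {T : Finset (Fin n)}
    (hT : T.card ≤ d) : Free p T := by
  classical
  rw [free_iff]
  obtain ⟨f⟩ : Nonempty (T ↪ Fin d) :=
    Function.Embedding.nonempty_of_card_le (by simpa using hT)
  have h1 := linearIndependent_of_generic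
    (fun (v : T) (k : Fin d) => (MvPolynomial.X (v.1, k) : MvPolynomial (Fin n × Fin d) ℚ))
    (x := fun x : Fin n × Fin d => p x.1 x.2)
    (x' := fun x : Fin n × Fin d => if h : x.1 ∈ T then (if f ⟨x.1, h⟩ = x.2 then 1 else 0) else 0)
    hp (by
      simp only [MvPolynomial.aeval_X]
      have h2 : (fun (v : T) (k : Fin d) =>
          if h : v.1 ∈ T then (if f ⟨v.1, h⟩ = k then (1 : ℝ) else 0) else 0) =
          fun v => Pi.basisFun ℝ (Fin d) (f v) := by
        funext v k
        simp [Pi.basisFun_apply, Pi.single_apply, eq_comm]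
      rw [h2]
      exact (Pi.basisFun ℝ (Fin d)).linearIndependent.comp f f.injective)
  simpa only [MvPolynomial.aeval_X] using h1

/-- The linear dependencies of the points `p v`, `v ∈ T`, are the multiples of `x`, and `x` is
nonzero exactly on `T`. -/
def Dep (p : Fin n → Fin d → ℝ) (T : Finset (Fin n)) (x : Fin n → ℝ) : Prop :=
  (∀ v, x v ≠ 0 ↔ v ∈ T) ∧ ∑ v, x v • p v = 0 ∧
    ∀ z : Fin n → ℝ, (∀ v, v ∉ T → z v = 0) → ∑ v, z v • p v = 0 → ∃ t : ℝ, ∀ v, z v = t * x v

theorem Dep.zero {p : Fin n → Fin d → ℝ} {T : Finset (Fin n)} {x : Fin n → ℝ} (h : Dep p T x)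
    {v : Fin n} (hv : v ∉ T) : x v = 0 := by
  by_contra h1
  exact hv ((h.1 v).1 h1)

/-- If a full dependency of `T` has the value `x v0 ≠ 0` and `T - v0` is free, then it is the only
one up to multiples. -/
theorem dep_of_erase {p : Fin n → Fin d → ℝ} {T : Finset (Fin n)} {x : Fin n → ℝ} {v0 : Fin n}
    (hv0 : v0 ∈ T) (hf : Free p (T.erase v0)) (hx : ∀ v, x v ≠ 0 ↔ v ∈ T)
    (hs : ∑ v, x v • p v = 0) : Dep p T x := by
  classical
  refine ⟨hx, hs, fun z hz hzs => ⟨z v0 / x v0, fun v => ?_⟩⟩
  have hx0 : x v0 ≠ 0 := (hx v0).2 hv0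
  have h1 := hf (fun v => z v - z v0 / x v0 * x v) (fun v hv => by
    by_cases h2 : v = v0
    · subst h2
      field_simp
      simp
    · have h3 : v ∉ T := fun h => hv (Finset.mem_erase.2 ⟨h2, h⟩)
      have h4 : x v = 0 := by
        by_contra h5
        exact h3 ((hx v).1 h5)
      simp [hz v h3, h4]) (by
    simp only [sub_smul, Finset.sum_sub_distrib, hzs, mul_smul, ← Finset.smul_sum, hs,
      smul_zero, sub_zero])
  have := congrFun h1 v
  simp only [Pi.zero_apply] at this
  linarith

theorem exists_dep {p : Fin n → Fin d → ℝ} (hf : ∀ T : Finset (Fin n), T.card ≤ d → Free p T)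
    {T : Finset (Fin n)} (hT : T.card = d + 1) : ∃ x, Dep p T x := by
  classical
  have h1 : ¬ LinearIndependent ℝ (fun v : T => p v) := by
    intro h
    have := h.fintype_card_le_finrank
    simp [hT] at this
  rw [← free_iff] at h1
  unfold Free at h1
  push Not at h1
  obtain ⟨x, hx0, hxs, hx1⟩ := h1
  have hxT : ∀ v, x v ≠ 0 ↔ v ∈ T := by
    intro v
    constructor
    · intro h
      by_contra h2
      exact h (hx0 v h2)
    · intro hv h0
      apply hx1
      refine hf (T.erase v) (by rw [Finset.card_erase_of_mem hv, hT]; simp) x (fun w hw => ?_) hxs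
      by_cases hwv : w = v
      · rw [hwv, h0]
      · exact hx0 w (fun h => hw (Finset.mem_erase.2 ⟨hwv, h⟩))
  obtain ⟨v0, hv0⟩ : T.Nonempty := Finset.card_pos.1 (by omega)
  exact ⟨x, dep_of_erase hv0 (hf _ (by rw [Finset.card_erase_of_mem hv0, hT]; simp)) hxT hxs⟩

end Pool.Agent.W5h1.Hyp
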