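import Pool.Agent.W5h1.Hyp.Defs

set_option autoImplicit false

namespace Pool.Agent.W5h1.Hyp

/-- Truncation to the size of a closed circuit `F`, followed by the relaxation of `F`. -/
theorem exists_relaxation {α : Type} [Finite α] (H : Matroid α) {F : Set α} (hFE : F ⊆ H.E)
    (hF1 : ∀ f ∈ F, H.Indep (F \ {f})) {f0 : α} (hf0 : f0 ∈ F)
    (hF2 : ∀ e ∈ H.E, e ∉ F → H.Indep (insert e (F \ {f0}))) :
    ∃ N : Matroid α, N.E = H.E ∧
      ∀ I, N.Indep I ↔ (H.Indep I ∧ I.ncard ≤ F.ncard) ∨ I = F := by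
  have hsub : ∀ I, I ⊆ F → I ≠ F → H.Indep I := by
    intro I hI hne
    obtain ⟨f, hf, hfI⟩ := Set.exists_of_ssubset (hI.ssubset_of_ne hne)
    exact (hF1 f hf).subset (fun x hx => ⟨hI hx, fun h => hfI (h ▸ hx)⟩)
  refine ⟨(IndepMatroid.ofFinite (E := H.E) (Set.toFinite _)
    (fun I => (H.Indep I ∧ I.ncard ≤ F.ncard) ∨ I = F) ?_ ?_ ?_ ?_).matroid, rfl,
    fun I => Iff.rfl⟩
  · left
    exact ⟨H.empty_indep, by simp⟩
  · rintro I J (⟨hJ, hJF⟩ | rfl) hIJ
    · left
      exact ⟨hJ.subset hIJ, (Set.ncard_le_ncard hIJ (Set.toFinite _)).trans hJF⟩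
    · by_cases h : I = J
      · right; exact h
      · left
        exact ⟨hsub I hIJ h, Set.ncard_le_ncard hIJ (Set.toFinite _)⟩
  · have haug : ∀ I J : Set α, H.Indep I → H.Indep J → I.ncard < J.ncard →
        ∃ e ∈ J, e ∉ I ∧ H.Indep (insert e I) := by
      intro I J hI hJ hlt
      obtain ⟨e, he, hei⟩ := hI.augment hJ (by
        rw [← (Set.toFinite I).cast_ncard_eq, ← (Set.toFinite J).cast_ncard_eq]
        exact_mod_cast hlt)
      exact ⟨e, he.1, he.2, hei⟩
    intro I J hI hJ hlt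
    have hIF : I ≠ F := by
      rintro rfl
      rcases hJ with ⟨-, h⟩ | rfl
      · omega
      · omega
    have hI' : H.Indep I ∧ I.ncard ≤ F.ncard := by
      rcases hI with h | h
      · exact h
      · exact absurd h hIF
    rcases hJ with ⟨hJ, hJF⟩ | rfl
    · obtain ⟨e, heJ, heI, hei⟩ := haug I J hI'.1 hJ hlt
      refine ⟨e, heJ, heI, Or.inl ⟨hei, ?_⟩⟩
      rw [Set.ncard_insert_of_notMem heI (Set.toFinite _)]
      omega
    · by_cases hsubI : I ⊆ J
      · obtain ⟨f, hf, hfI⟩ := Set.exists_of_ssubset (hsubI.ssubset_of_ne hIF)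
        refine ⟨f, hf, hfI, ?_⟩
        by_cases h : insert f I = J
        · right; exact h
        · left
          refine ⟨hsub _ (Set.insert_subset hf hsubI) h, ?_⟩
          rw [Set.ncard_insert_of_notMem hfI (Set.toFinite _)]
          omega
      · obtain ⟨e0, he0I, he0J⟩ := Set.not_subset.1 hsubI
        have hK := hF2 e0 (hI'.1.subset_ground he0I) he0J
        have hKcard : (insert e0 (J \ {f0})).ncard = J.ncard := by
          rw [Set.ncard_insert_of_notMem (fun h => he0J h.1) (Set.toFinite _)]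
          exact Set.ncard_sdiff_singleton_add_one hf0 (Set.toFinite _)
        obtain ⟨e, heK, heI, hei⟩ := haug I _ hI'.1 hK (by rw [hKcard]; exact hlt)
        have heJ : e ∈ J := by
          rcases heK with rfl | h
          · exact absurd he0I heI
          · exact h.1
        refine ⟨e, heJ, heI, Or.inl ⟨hei, ?_⟩⟩
        rw [Set.ncard_insert_of_notMem heI (Set.toFinite _)]
        omega
  · rintro I (⟨hI, -⟩ | rfl)
    · exact hI.subset_ground
    · exact hFE

/-- A proper sequence of `k` circuits in a set `U` leaves a subset of `U` with `|U| - k` elements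
whose closure contains `U`. -/
theorem exists_spanning_of_sequence {α : Type} [Finite α] (M : Matroid α) {k : ℕ}
    (X : Fin k → Set α) (hX : ∀ i, M.IsCircuit (X i))
    (hprop : ∀ i : Fin k, 0 < i.val → ¬ X i ⊆ ⋃ j : Fin k, ⋃ _ : j < i, X j)
    {U : Set α} (hU : U ⊆ M.E) (hXU : ∀ i, X i ⊆ U) :
    ∃ W ⊆ U, W.ncard + k = U.ncard ∧ U ⊆ M.closure W := by
  have h1 : ∀ i : Fin k, ∃ e ∈ X i, ∀ j : Fin k, j < i → e ∉ X j := by
    intro i
    rcases Nat.eq_zero_or_pos i.val with h0 | h0
    · obtain ⟨e, he⟩ := (hX i).nonempty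
      refine ⟨e, he, fun j hj => ?_⟩
      have : j.val < i.val := hj
      omega
    · obtain ⟨e, he, he'⟩ := Set.not_subset.1 (hprop i h0)
      refine ⟨e, he, fun j hj hej => he' ?_⟩
      exact Set.mem_iUnion.2 ⟨j, Set.mem_iUnion.2 ⟨hj, hej⟩⟩
  choose e he hne using h1
  have hinj : Function.Injective e := by
    intro i j hij
    by_contra hc
    rcases lt_or_gt_of_ne hc with h | h
    · exact hne j i h (hij ▸ he i)
    · exact hne i j h (hij ▸ he j)
  have hrange : Set.range e ⊆ U := by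
    rintro _ ⟨i, rfl⟩
    exact hXU i (he i)
  have hWE : U \ Set.range e ⊆ M.E := Set.sdiff_subset.trans hU
  refine ⟨U \ Set.range e, Set.sdiff_subset, ?_, ?_⟩
  · have h2 : (Set.range e).ncard = k := by
      rw [← Set.image_univ, Set.ncard_image_of_injective _ hinj, Set.ncard_univ]
      simp
    have h3 := Set.ncard_sdiff_add_ncard_of_subset hrange (Set.toFinite _)
    omega
  · have hW : U \ Set.range e ⊆ M.closure (U \ Set.range e) := M.subset_closure _ hWE
    have hmem : ∀ m : ℕ, ∀ i : Fin k, i.val = m → e i ∈ M.closure (U \ Set.range e) := by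
      intro m
      induction m using Nat.strong_induction_on with
      | _ m ih =>
        intro i him
        have h4 := (hX i).mem_closure_sdiff_singleton_of_mem (he i)
        have h5 : X i \ {e i} ⊆ M.closure (U \ Set.range e) := by
          rintro x ⟨hx, hxe⟩
          by_cases hxr : x ∈ Set.range e
          · obtain ⟨j, rfl⟩ := hxr
            have hji : j < i := by
              rcases lt_trichotomy j i with h | h | h
              · exact h
              · exact absurd (by rw [h]; rfl) hxe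
              · exact absurd hx (hne j i h)
            exact ih j.val (by rw [← him]; exact hji) j rfl
          · exact hW ⟨hXU i hx, hxr⟩
        have h6 := M.closure_subset_closure h5 h4
        rwa [M.closure_closure] at h6
    intro x hx
    by_cases hxr : x ∈ Set.range e
    · obtain ⟨j, rfl⟩ := hxr
      exact hmem j.val j rfl
    · exact hW ⟨hx, hxr⟩

variable {n : ℕ}

/-- The lower bound for `val` at a closed circuit which contains no member of the family. -/
theorem ncard_le_val {𝒳 : Set (Set (Sym2 (Fin n)))} {M : Matroid (Sym2 (Fin n))}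
    (hM : IsXMatroid 𝒳 M) {F : Set (Sym2 (Fin n))} (hF : F ⊆ edges n)
    (hno : ∀ X ∈ 𝒳, ¬ X ⊆ F) {f0 : Sym2 (Fin n)} (hf0 : f0 ∈ F)
    (hind : ∀ e ∈ edges n, e ∉ F → M.Indep (insert e (F \ {f0}))) :
    (F.ncard : ℤ) ≤ val 𝒳 F := by
  refine le_csInf ⟨(F.ncard : ℤ), 0, Fin.elim0, ⟨fun i => i.elim0, fun i => i.elim0⟩, by simp⟩ ?_
  rintro m ⟨k, X, ⟨hX, hprop⟩, rfl⟩
  rcases Nat.eq_zero_or_pos k with rfl | hk
  · simp
  · set U := F ∪ ⋃ i, X i with hU
    have hUE : U ⊆ M.E := by
      rw [hM.1]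
      refine Set.union_subset hF (Set.iUnion_subset fun i => ?_)
      rw [← hM.1]
      exact (hM.2 _ (hX i)).subset_ground
    have hXU : ∀ i, X i ⊆ U := fun i => (Set.subset_iUnion X i).trans Set.subset_union_right
    obtain ⟨W, hWU, hWk, hWcl⟩ :=
      exists_spanning_of_sequence M X (fun i => hM.2 _ (hX i)) hprop hUE hXU
    obtain ⟨e0, he0, he0F⟩ := Set.not_subset.1 (hno _ (hX ⟨0, hk⟩))
    have hK := hind e0 (by rw [← hM.1]; exact hUE (hXU _ he0)) he0F
    have hKU : insert e0 (F \ {f0}) ⊆ U :=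
      Set.insert_subset (hXU _ he0) (Set.sdiff_subset.trans Set.subset_union_left)
    have hKcard : (insert e0 (F \ {f0})).ncard = F.ncard := by
      rw [Set.ncard_insert_of_notMem (fun h => he0F h.1) (Set.toFinite _)]
      exact Set.ncard_sdiff_singleton_add_one hf0 (Set.toFinite _)
    have h1 : (insert e0 (F \ {f0})).encard ≤ W.encard := by
      rw [← hK.eRk_eq_encard]
      calc M.eRk (insert e0 (F \ {f0})) ≤ M.eRk (M.closure W) :=
            M.eRk_mono (hKU.trans hWcl)
        _ = M.eRk W := M.eRk_closure_eq W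
        _ ≤ W.encard := M.eRk_le_encard W
    rw [← (Set.toFinite (insert e0 (F \ {f0}))).cast_ncard_eq,
      ← (Set.toFinite W).cast_ncard_eq] at h1
    have h2 : (insert e0 (F \ {f0})).ncard ≤ W.ncard := by exact_mod_cast h1
    rw [hKcard] at h2
    omega

theorem toNat_eRk_lt {α : Type} [Finite α] {M : Matroid α} {F : Set α} (hF : F ⊆ M.E)
    (hd : ¬ M.Indep F) : (M.eRk F).toNat < F.ncard := by
  obtain ⟨I, hI⟩ := M.exists_isBasis F hF
  have h1 : M.eRk F = I.encard := hI.eRk_eq_encard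
  have h2 : I ≠ F := fun h => hd (h ▸ hI.indep)
  have h3 : I.ncard < F.ncard :=
    Set.ncard_lt_ncard (hI.subset.ssubset_of_ne h2) (Set.toFinite _)
  rw [h1]
  exact h3

/-- Every `𝒳`-matroid is below a maximal one. -/
theorem exists_maximal {𝒳 : Set (Set (Sym2 (Fin n)))} {N : Matroid (Sym2 (Fin n))}
    (hN : IsXMatroid 𝒳 N) :
    ∃ M, IsMaximalXMatroid 𝒳 M ∧ ∀ I, N.Indep I → M.Indep I := by
  set S : Set ℕ := {k | ∃ M, IsXMatroid 𝒳 M ∧ (∀ I, N.Indep I → M.Indep I) ∧
    k = {I | M.Indep I}.ncard} with hS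
  have hne : S.Nonempty := ⟨_, N, hN, fun _ h => h, rfl⟩
  have hbdd : BddAbove S := by
    refine ⟨Nat.card (Set (Sym2 (Fin n))), ?_⟩
    rintro k ⟨M, -, -, rfl⟩
    rw [← Set.ncard_univ]
    exact Set.ncard_le_ncard (Set.subset_univ _) (Set.toFinite _)
  obtain ⟨M, hM, hNM, hMk⟩ := Nat.sSup_mem hne hbdd
  refine ⟨M, ⟨hM, fun M' hM' hMM' => ?_⟩, hNM⟩
  have h1 : {I | M'.Indep I}.ncard ≤ {I | M.Indep I}.ncard := by
    rw [← hMk]
    exact le_csSup hbdd ⟨M', hM', fun I hI => hMM' I (hNM I hI), rfl⟩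
  have h2 : {I | M.Indep I} = {I | M'.Indep I} :=
    Set.eq_of_subset_of_ncard_le (fun I hI => hMM' I hI) h1 (Set.toFinite _)
  refine Matroid.ext_indep (by rw [hM'.1, hM.1]) (fun I _ => ?_)
  have h3 : I ∈ {I | M.Indep I} ↔ I ∈ {I | M'.Indep I} := by rw [h2]
  exact h3.symm

end Pool.Agent.W5h1.Hyp
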