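import Pool.Agent.W5h1.Hyp.Flat
import Pool.Agent.W5h1.Hyp.Relax
import Pool.Agent.W5h1.Hyp.Exists

set_option autoImplicit false

namespace Pool.Agent.W5h1.Hyp

open Finset

variable {n d : ℕ}

/-! ### Counting -/

theorem exists_parts (hd : 5 ≤ d) (hn : 2 * d + 2 ≤ n) :
    ∃ V₁ V₂ V₃ : Finset (Fin n), Parts d V₁ V₂ V₃ := by
  classical
  obtain ⟨V₁, -, h1⟩ := Finset.exists_subset_card_eq (s := (univ : Finset (Fin n))) (n := d)
    (by simp; omega)
  obtain ⟨V₂, hs2, h2⟩ := Finset.exists_subset_card_eq (s := univ \ V₁) (n := d - 2)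
    (by rw [Finset.card_sdiff_of_subset (Finset.subset_univ _), h1]; simp; omega)
  obtain ⟨V₃, hs3, h3⟩ := Finset.exists_subset_card_eq (s := (univ \ V₁) \ V₂) (n := 3)
    (by rw [Finset.card_sdiff_of_subset hs2,
          Finset.card_sdiff_of_subset (Finset.subset_univ _), h1, h2]; simp; omega)
  refine ⟨V₁, V₂, V₃, ?_, ?_, ?_, h1, h2, h3⟩
  · rw [Finset.disjoint_left]
    intro v hv1 hv2
    have := hs2 hv2
    simp only [Finset.mem_sdiff] at this
    exact this.2 hv1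
  · rw [Finset.disjoint_left]
    intro v hv1 hv3
    have := hs3 hv3
    simp only [Finset.mem_sdiff] at this
    exact this.1.2 hv1
  · rw [Finset.disjoint_left]
    intro v hv2 hv3
    have := hs3 hv3
    simp only [Finset.mem_sdiff] at this
    exact this.2 hv2

theorem ncard_coneSet_le {A B C : Finset (Fin n)} (hA : (A ∪ C).card = d + 1)
    (hB : (B ∪ C).card = d + 1) : (coneSet A B C).ncard ≤ (d + 1) * (d + 1) := by
  classical
  have hsub : coneSet A B C ⊆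
      (((A ∪ C) ×ˢ (B ∪ C)).image (fun x : Fin n × Fin n => s(x.1, x.2)) :
        Finset (Sym2 (Fin n))) := by
    intro e he
    induction e using Sym2.ind with
    | _ i j =>
      rw [mem_coneSet] at he
      obtain ⟨hij, ⟨hi, hj⟩, hA', hB'⟩ := he
      simp only [Finset.mem_union] at hi hj
      rw [Finset.mem_coe, Finset.mem_image]
      by_cases h : (i ∈ A ∨ i ∈ C) ∧ (j ∈ B ∨ j ∈ C)
      · refine ⟨(i, j), ?_, rfl⟩
        simp only [Finset.mem_product, Finset.mem_union]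
        exact h
      · refine ⟨(j, i), ?_, Sym2.eq_swap⟩
        simp only [Finset.mem_product, Finset.mem_union]
        tauto
  calc (coneSet A B C).ncard
      ≤ (((A ∪ C) ×ˢ (B ∪ C)).image (fun x : Fin n × Fin n => s(x.1, x.2))).card := by
        rw [← Set.ncard_coe_finset]
        exact Set.ncard_le_ncard hsub (Set.toFinite _)
    _ ≤ ((A ∪ C) ×ˢ (B ∪ C)).card := Finset.card_image_le
    _ = (d + 1) * (d + 1) := by rw [Finset.card_product, hA, hB]

theorem le_ncard_triSet (hd : 5 ≤ d) {V₁ V₂ V₃ : Finset (Fin n)} (hV : Parts d V₁ V₂ V₃) :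
    d * d + 2 * d ≤ (triSet V₁ V₂ V₃).ncard := by
  classical
  obtain ⟨h12, h13, h23, k1, k2, k3⟩ := hV
  have h12' : ∀ v, v ∈ V₁ → v ∉ V₂ := fun v h' => Finset.disjoint_left.1 h12 h'
  have h13' : ∀ v, v ∈ V₁ → v ∉ V₃ := fun v h' => Finset.disjoint_left.1 h13 h'
  have h23' : ∀ v, v ∈ V₂ → v ∉ V₃ := fun v h' => Finset.disjoint_left.1 h23 h'
  set Q : Finset (Fin n × Fin n) := (V₁ ×ˢ (V₂ ∪ V₃)) ∪ (V₂ ×ˢ V₃) with hQ
  have hinj : Set.InjOn (fun x : Fin n × Fin n => s(x.1, x.2)) (Q : Set (Fin n × Fin n)) := by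
    rintro ⟨a, b⟩ hab ⟨a', b'⟩ hab' h
    simp only [Sym2.eq_iff] at h
    rcases h with ⟨rfl, rfl⟩ | ⟨rfl, rfl⟩
    · rfl
    · exfalso
      simp only [hQ, Finset.coe_union, Finset.coe_product, Set.mem_union, Set.mem_prod,
        Finset.mem_coe] at hab hab'
      rcases hab with ⟨h1, h2⟩ | ⟨h1, h2⟩
      · rcases hab' with ⟨h3, h4⟩ | ⟨h3, h4⟩
        · rcases h2 with h2 | h2
          · exact h12' _ h3 h2
          · exact h13' _ h3 h2
        · exact h13' _ h1 h4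
      · rcases hab' with ⟨h3, h4⟩ | ⟨h3, h4⟩
        · exact h13' _ h3 h2
        · exact h23' _ h3 h2
  have hsub : ((Q.image (fun x : Fin n × Fin n => s(x.1, x.2)) : Finset (Sym2 (Fin n))) :
      Set (Sym2 (Fin n))) ⊆ triSet V₁ V₂ V₃ := by
    intro e he
    rw [Finset.mem_coe, Finset.mem_image] at he
    obtain ⟨⟨a, b⟩, hab, rfl⟩ := he
    rw [mem_triSet]
    simp only [hQ, Finset.mem_union, Finset.mem_product] at hab ⊢
    rcases hab with ⟨h1, h2⟩ | ⟨h1, h2⟩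
    · refine ⟨⟨Or.inl (Or.inl h1), ?_⟩, ?_, ?_, ?_⟩
      · rcases h2 with h2 | h2
        · exact Or.inl (Or.inr h2)
        · exact Or.inr h2
      · rintro ⟨-, h3⟩
        rcases h2 with h2 | h2
        · exact h12' _ h3 h2
        · exact h13' _ h3 h2
      · rintro ⟨h3, -⟩
        exact h12' _ h1 h3
      · rintro ⟨h3, -⟩
        exact h13' _ h1 h3
    · refine ⟨⟨Or.inl (Or.inr h1), Or.inr h2⟩, ?_, ?_, ?_⟩
      · rintro ⟨h3, -⟩
        exact h12' _ h3 h1
      · rintro ⟨-, h3⟩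
        exact h23' _ h3 h2
      · rintro ⟨h3, -⟩
        exact h23' _ h1 h3
  have hcard : Q.card = d * (d + 1) + (d - 2) * 3 := by
    rw [hQ, Finset.card_union_of_disjoint, Finset.card_product, Finset.card_product,
      Finset.card_union_of_disjoint h23, k1, k2, k3]
    · congr 2
      omega
    · rw [Finset.disjoint_left]
      rintro ⟨a, b⟩ h1 h2
      rw [Finset.mem_product] at h1 h2
      exact h12' _ h1.1 h2.1
  calc d * d + 2 * d ≤ Q.card := by
        rw [hcard]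
        obtain ⟨m, rfl⟩ : ∃ m, d = m + 5 := ⟨d - 5, by omega⟩
        have : m + 5 - 2 = m + 3 := by omega
        rw [this]
        nlinarith
    _ = (Q.image (fun x : Fin n × Fin n => s(x.1, x.2))).card :=
        (Finset.card_image_of_injOn hinj).symm
    _ ≤ (triSet V₁ V₂ V₃).ncard := by
        rw [← Set.ncard_coe_finset]
        exact Set.ncard_le_ncard hsub (Set.toFinite _)

/-- The tripartite graph contains no member of the family. -/
theorem not_coneSet_subset (hd : 5 ≤ d) {V₁ V₂ V₃ : Finset (Fin n)} (hV : Parts d V₁ V₂ V₃)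
    {k : ℕ} (hk : k ≤ d) {A B C : Finset (Fin n)} (hAB : Disjoint A B) (hAC : Disjoint A C)
    (hBC : Disjoint B C) (hA : A.card = d + 1 - k) (hB : B.card = d + 1 - k)
    (hC : C.card = k) : ¬ coneSet A B C ⊆ triSet V₁ V₂ V₃ := by
  classical
  intro hsub
  obtain ⟨h12, h13, h23, k1, k2, k3⟩ := hV
  set φ : Fin n → ℕ := fun v => if v ∈ V₁ then 0 else if v ∈ V₂ then 1 else 2 with hφ
  have hφ3 : ∀ v, φ v < 3 := by
    intro v
    simp only [hφ]
    split_ifs <;> omega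
  have hφ0 : ∀ v, φ v = 0 → v ∈ V₁ := by
    intro v h
    by_contra h1
    by_cases h2 : v ∈ V₂ <;> simp [hφ, h1, h2] at h
  have hφ1 : ∀ v, φ v = 1 → v ∈ V₂ := by
    intro v h
    by_contra h2
    by_cases h1 : v ∈ V₁ <;> simp [hφ, h1, h2] at h
  have hφ2 : ∀ v, v ∈ V₁ ∪ V₂ ∪ V₃ → φ v = 2 → v ∈ V₃ := by
    intro v hv h
    simp only [Finset.mem_union] at hv
    rcases hv with (hv | hv) | hv
    · simp [hφ, hv] at h
    · by_cases h1 : v ∈ V₁ <;> simp [hφ, h1, hv] at h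
    · exact hv
  -- the adjacent vertices are in different parts
  have hadj : ∀ i j, i ≠ j → i ∈ A ∪ B ∪ C → j ∈ A ∪ B ∪ C → ¬ (i ∈ A ∧ j ∈ A) →
      ¬ (i ∈ B ∧ j ∈ B) → (i ∈ V₁ ∪ V₂ ∪ V₃ ∧ j ∈ V₁ ∪ V₂ ∪ V₃) ∧ φ i ≠ φ j := by
    intro i j hij hi hj h1 h2
    have h3 := hsub (mem_coneSet.2 ⟨hij, ⟨hi, hj⟩, h1, h2⟩)
    rw [mem_triSet] at h3
    refine ⟨h3.1, fun h4 => ?_⟩
    obtain ⟨⟨hi', hj'⟩, n1, n2, n3⟩ := h3
    have h5 := hφ3 i
    have h6 : φ i = 0 ∨ φ i = 1 ∨ φ i = 2 := by omega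
    rcases h6 with h6 | h6 | h6
    · exact n1 ⟨hφ0 i h6, hφ0 j (h4 ▸ h6)⟩
    · exact n2 ⟨hφ1 i h6, hφ1 j (h4 ▸ h6)⟩
    · exact n3 ⟨hφ2 i hi' h6, hφ2 j hj' (h4 ▸ h6)⟩
  have hAB' : ∀ v, v ∈ A → v ∉ B := fun v h => Finset.disjoint_left.1 hAB h
  have hAC' : ∀ v, v ∈ A → v ∉ C := fun v h => Finset.disjoint_left.1 hAC h
  have hBC' : ∀ v, v ∈ B → v ∉ C := fun v h => Finset.disjoint_left.1 hBC h
  have adjAB : ∀ a ∈ A, ∀ b ∈ B, (a ∈ V₁ ∪ V₂ ∪ V₃ ∧ b ∈ V₁ ∪ V₂ ∪ V₃) ∧ φ a ≠ φ b := by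
    intro a ha b hb
    exact hadj a b (fun h => hAB' a ha (h ▸ hb)) (by simp [ha]) (by simp [hb])
      (fun h => hAB' b h.2 hb) (fun h => hAB' a ha h.1)
  have adjAC : ∀ a ∈ A, ∀ c ∈ C, (a ∈ V₁ ∪ V₂ ∪ V₃ ∧ c ∈ V₁ ∪ V₂ ∪ V₃) ∧ φ a ≠ φ c := by
    intro a ha c hc
    exact hadj a c (fun h => hAC' a ha (h ▸ hc)) (by simp [ha]) (by simp [hc])
      (fun h => hAC' c h.2 hc) (fun h => hAB' a ha h.1)
  have adjBC : ∀ b ∈ B, ∀ c ∈ C, (b ∈ V₁ ∪ V₂ ∪ V₃ ∧ c ∈ V₁ ∪ V₂ ∪ V₃) ∧ φ b ≠ φ c := by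
    intro b hb c hc
    exact hadj b c (fun h => hBC' b hb (h ▸ hc)) (by simp [hb]) (by simp [hc])
      (fun h => hAB' b h.1 hb) (fun h => hBC' c h.2 hc)
  have adjCC : ∀ c ∈ C, ∀ c' ∈ C, c ≠ c' → φ c ≠ φ c' := by
    intro c hc c' hc' hne
    exact (hadj c c' hne (by simp [hc]) (by simp [hc'])
      (fun h => hAC' c h.1 hc) (fun h => hBC' c h.1 hc)).2
  obtain ⟨a0, ha0⟩ : A.Nonempty := Finset.card_pos.1 (by omega)
  obtain ⟨b0, hb0⟩ : B.Nonempty := Finset.card_pos.1 (by omega)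
  have hab := (adjAB a0 ha0 b0 hb0).2
  have f1 := hφ3 a0
  have f2 := hφ3 b0
  by_cases hk0 : k = 0
  · subst hk0
    have h1 : A ∪ B ⊆ V₁ ∪ V₂ ∪ V₃ := by
      refine Finset.union_subset (fun a ha => (adjAB a ha b0 hb0).1.1)
        (fun b hb => (adjAB a0 ha0 b hb).1.2)
    have h2 := Finset.card_le_card h1
    rw [Finset.card_union_of_disjoint hAB, hA, hB] at h2
    have h3 := Finset.card_union_le (V₁ ∪ V₂) V₃
    have h4 := Finset.card_union_le V₁ V₂
    omega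
  · obtain ⟨c, hc⟩ : C.Nonempty := Finset.card_pos.1 (by omega)
    have hac := (adjAC a0 ha0 c hc).2
    have hbc := (adjBC b0 hb0 c hc).2
    have f3 := hφ3 c
    by_cases hk1 : k = 1
    · have hBφ : ∀ b ∈ B, φ b = φ b0 := by
        intro b hb
        have g1 := (adjAB a0 ha0 b hb).2
        have g2 := (adjBC b hb c hc).2
        have g3 := hφ3 b
        omega
      have hAφ : ∀ a ∈ A, φ a = φ a0 := by
        intro a ha
        have g1 := (adjAB a ha b0 hb0).2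
        have g2 := (adjAC a ha c hc).2
        have g3 := hφ3 a
        omega
      have hb00 : φ b0 = 0 := by
        by_contra hne
        have h6 : φ b0 = 1 ∨ φ b0 = 2 := by omega
        rcases h6 with h6 | h6
        · have : B ⊆ V₂ := fun b hb => hφ1 b (by rw [hBφ b hb, h6])
          have := Finset.card_le_card this
          omega
        · have : B ⊆ V₃ := fun b hb => hφ2 b (adjAB a0 ha0 b hb).1.2 (by rw [hBφ b hb, h6])
          have := Finset.card_le_card this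
          omega
      have ha00 : φ a0 = 0 := by
        by_contra hne
        have h6 : φ a0 = 1 ∨ φ a0 = 2 := by omega
        rcases h6 with h6 | h6
        · have : A ⊆ V₂ := fun a ha => hφ1 a (by rw [hAφ a ha, h6])
          have := Finset.card_le_card this
          omega
        · have : A ⊆ V₃ := fun a ha => hφ2 a (adjAB a ha b0 hb0).1.1 (by rw [hAφ a ha, h6])
          have := Finset.card_le_card this
          omega
      omega
    · obtain ⟨c1, hc1, c2, hc2, hcc⟩ := Finset.one_lt_card.1 (by omega : 1 < C.card)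
      have g1 := (adjAC a0 ha0 c1 hc1).2
      have g2 := (adjAC a0 ha0 c2 hc2).2
      have g3 := (adjBC b0 hb0 c1 hc1).2
      have g4 := (adjBC b0 hb0 c2 hc2).2
      have g5 := adjCC c1 hc1 c2 hc2 hcc
      have g6 := hφ3 c1
      have g7 := hφ3 c2
      omega

/-! ### The main theorem -/

theorem hyper_indep_iff {p : Fin n → Fin d → ℝ} {I : Set (Sym2 (Fin n))} :
    (hyper p).Indep I ↔ I ⊆ edges n ∧ LinearIndepOn ℝ (vec p) I := Iff.rfl

/-- A member of the family, its cardinality and its circuit properties. -/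
theorem coneFamily_facts {p : Fin n → Fin d → ℝ} (hp : Generic p) {X : Set (Sym2 (Fin n))}
    (hX : X ∈ coneFamily n d) :
    X ⊆ edges n ∧ ¬ (hyper p).Indep X ∧ (∀ e ∈ X, (hyper p).Indep (X \ {e})) ∧
      X.ncard ≤ (d + 1) * (d + 1) := by
  classical
  obtain ⟨k, hk, A, B, C, hAB, hAC, hBC, hA, hB, hC, rfl⟩ := exists_coneSet hX
  have hA1 : (A ∪ C).card = d + 1 := by
    rw [Finset.card_union_of_disjoint hAC]; omega
  have hB1 : (B ∪ C).card = d + 1 := by
    rw [Finset.card_union_of_disjoint hBC]; omega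
  have hAn : A.Nonempty := Finset.card_pos.1 (by omega)
  have hBn : B.Nonempty := Finset.card_pos.1 (by omega)
  refine ⟨coneSet_subset_edges A B C, fun h => ?_, fun e he => ?_, ncard_coneSet_le hA1 hB1⟩
  · exact cone_dependent_generic hp hAB hAC hBC hAn hBn hA1 hB1 h.2
  · exact ⟨Set.sdiff_subset.trans (coneSet_subset_edges A B C),
      cone_minus_indep_generic hp hAB hAC hBC hAn hBn hA1 hB1 he⟩

theorem isXMatroid_hyper {p : Fin n → Fin d → ℝ} (hp : Generic p) :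
    IsXMatroid (coneFamily n d) (hyper p) := by
  refine ⟨rfl, fun X hX => ?_⟩
  obtain ⟨h1, h2, h3, -⟩ := coneFamily_facts hp hX
  rw [Matroid.isCircuit_iff_dep_forall_sdiff_singleton_indep]
  exact ⟨⟨h2, h1⟩, h3⟩

/-- The closed circuit and its properties. -/
theorem exists_closed_circuit {p : Fin n → Fin d → ℝ} (hp : Generic p) (hd : 5 ≤ d)
    (hn : 2 * d + 2 ≤ n) : ∃ F ⊆ edges n, ¬ (hyper p).Indep F ∧
      (∀ f ∈ F, (hyper p).Indep (F \ {f})) ∧ (∀ X ∈ coneFamily n d, ¬ X ⊆ F) ∧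
      d * d + 2 * d ≤ F.ncard ∧ ∃ f0 ∈ F, ∀ e ∈ edges n, e ∉ F →
        (hyper p).Indep (insert e (F \ {f0})) := by
  classical
  obtain ⟨V₁, V₂, V₃, hV⟩ := exists_parts hd hn
  have hcard := le_ncard_triSet hd hV
  have hne : (triSet V₁ V₂ V₃).Nonempty := by
    rw [← Set.ncard_pos (Set.toFinite _)]
    have : 0 < d * d + 2 * d := by positivity
    omega
  obtain ⟨f0, hf0⟩ := hne
  refine ⟨triSet V₁ V₂ V₃, triSet_subset_edges _ _ _, fun h => tri_not_indep hp hd hV h.2,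
    fun f hf => ⟨Set.sdiff_subset.trans (triSet_subset_edges _ _ _),
      tri_minus_indep hp hd hV hf⟩, ?_, hcard, f0, hf0, fun e he heF => ?_⟩
  · intro X hX
    obtain ⟨k, hk, A, B, C, hAB, hAC, hBC, hA, hB, hC, rfl⟩ := exists_coneSet hX
    exact not_coneSet_subset hd hV hk hAB hAC hBC hA hB hC
  · rw [hyper_indep_iff]
    refine ⟨Set.insert_subset he (Set.sdiff_subset.trans (triSet_subset_edges _ _ _)), ?_⟩
    rw [linearIndepOn_insert (fun h => heF h.1)]
    refine ⟨tri_minus_indep hp hd hV hf0, fun h => tri_flat hp hd hV he heF ?_⟩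
    exact Submodule.span_mono (Set.image_mono Set.sdiff_subset) h

theorem main (d n : ℕ) (hd : 5 ≤ d) (hn : 2 * d + 2 ≤ n) (p : Fin n → Fin d → ℝ)
    (hp : Generic p) :
    IsXMatroid (coneFamily n d) (hyper p) ∧
    (∃ F ⊆ edges n, (((hyper p).eRk F).toNat : ℤ) < val (coneFamily n d) F) ∧
    ∃ M, IsMaximalXMatroid (coneFamily n d) M ∧ M ≠ hyper p := by
  classical
  obtain ⟨F, hFE, hFd, hFi, hFX, hFc, f0, hf0, hFcl⟩ := exists_closed_circuit hp hd hn
  refine ⟨isXMatroid_hyper hp, ⟨F, hFE, ?_⟩, ?_⟩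
  · have h1 := ncard_le_val (isXMatroid_hyper hp) hFE hFX hf0 hFcl
    have h2 : ((hyper p).eRk F).toNat < F.ncard := toNat_eRk_lt hFE hFd
    have h3 : ((((hyper p).eRk F).toNat : ℕ) : ℤ) < (F.ncard : ℤ) := by exact_mod_cast h2
    exact lt_of_lt_of_le h3 h1
  · obtain ⟨N, hNE, hN⟩ := exists_relaxation (hyper p) hFE hFi hf0 hFcl
    have hNX : IsXMatroid (coneFamily n d) N := by
      refine ⟨hNE, fun X hX => ?_⟩
      obtain ⟨h1, h2, h3, h4⟩ := coneFamily_facts hp hX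
      rw [Matroid.isCircuit_iff_dep_forall_sdiff_singleton_indep]
      refine ⟨⟨fun h => ?_, by rw [hNE]; exact h1⟩, fun e he => ?_⟩
      · rcases (hN X).1 h with h5 | h5
        · exact h2 h5.1
        · exact hFX X hX h5.le
      · refine (hN _).2 (Or.inl ⟨h3 e he, ?_⟩)
        have h5 := Set.ncard_sdiff_singleton_add_one he (Set.toFinite _)
        have h6 : (d + 1) * (d + 1) = d * d + 2 * d + 1 := by ring
        omega
    obtain ⟨M, hM, hNM⟩ := exists_maximal hNX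
    refine ⟨M, hM, ?_⟩
    rintro rfl
    exact hFd (hNM F ((hN F).2 (Or.inr rfl)))

end Pool.Agent.W5h1.Hyp
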