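import Pool.Agent.W5h1.Hyp.Defs

set_option autoImplicit false

namespace Pool.Agent.W5h1.Hyp

open Finset

variable {n d : ℕ}

/-- An equilibrium stress: a skew-symmetric matrix whose rows are linear dependencies of `p`. -/
def IsStress (p : Fin n → Fin d → ℝ) (ω : Fin n → Fin n → ℝ) : Prop :=
  (∀ i j, ω i j = - ω j i) ∧ ∀ i, ∑ j, ω i j • p j = 0

/-- The skew-symmetric matrix of a function on the edges. -/
def sk (c : Sym2 (Fin n) → ℝ) (i j : Fin n) : ℝ :=
  if i < j then c s(i, j) else if j < i then - c s(i, j) else 0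

theorem sk_skew (c : Sym2 (Fin n) → ℝ) (i j : Fin n) : sk c i j = - sk c j i := by
  unfold sk
  rcases lt_trichotomy i j with h | h | h
  · rw [if_pos h, if_neg (not_lt.2 h.le), if_pos h, neg_neg, Sym2.eq_swap]
  · subst h; simp
  · rw [if_neg (not_lt.2 h.le), if_pos h, if_pos h, Sym2.eq_swap]

theorem sum_vec (p : Fin n → Fin d → ℝ) (c : Sym2 (Fin n) → ℝ) (v : Fin n) :
    (∑ e ∈ (univ : Finset (Sym2 (Fin n))) with ¬ e.IsDiag, c e • vec p e) v =
      ∑ j, sk c v j • p j := by
  have h0 : (univ : Finset (Sym2 (Fin n))) = (univ : Finset (Fin n)).sym2 := by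
    rw [Finset.sym2_univ]
  rw [h0, Finset.sum_sym2_filter_not_isDiag, Finset.sum_apply]
  have h1 : ∀ x ∈ (univ : Finset (Fin n)).offDiag.filter (fun i => i.1 < i.2),
      (c s(x.1, x.2) • vec p s(x.1, x.2)) v =
        (if x.1 = v then sk c v x.2 • p x.2 else 0) +
          (if x.2 = v then sk c v x.1 • p x.1 else 0) := by
    rintro ⟨i, j⟩ hx
    rw [mem_filter] at hx
    have hij : i < j := hx.2
    simp only [vec, Sym2.inf_mk, Sym2.sup_mk, inf_eq_left.2 hij.le, sup_eq_right.2 hij.le,
      Pi.smul_apply, pairVec]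
    by_cases h1 : v = i
    · subst h1
      rw [if_pos rfl, if_pos rfl, if_neg hij.ne', add_zero]
      simp [sk, hij]
    · rw [if_neg h1, if_neg (Ne.symm h1), zero_add]
      by_cases h2 : v = j
      · subst h2
        rw [if_pos rfl, if_pos rfl]
        simp only [sk, if_neg (not_lt.2 hij.le), if_pos hij, Sym2.eq_swap, smul_neg, neg_smul]
      · rw [if_neg h2, if_neg (Ne.symm h2), smul_zero]
  rw [Finset.sum_congr rfl h1, Finset.sum_filter]
  have h2 : (univ : Finset (Fin n)).offDiag = (univ ×ˢ univ).filter (fun x => x.1 ≠ x.2) := by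
    ext x; simp [Finset.mem_offDiag]
  rw [h2, Finset.sum_filter, Finset.sum_product]
  have h3 : ∀ x y : Fin n, (if (x, y).1 ≠ (x, y).2 then
      (if (x, y).1 < (x, y).2 then
        ((if (x, y).1 = v then sk c v (x, y).2 • p (x, y).2 else 0) +
          (if (x, y).2 = v then sk c v (x, y).1 • p (x, y).1 else 0)) else 0) else 0) =
      (if x = v then (if v < y then sk c v y • p y else 0) else 0) +
      (if y = v then (if x < v then sk c v x • p x else 0) else 0) := by
    intro x y
    by_cases hxy : x < y
    · simp only [hxy.ne, ne_eq, not_false_iff, if_true, hxy]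
      by_cases h1 : x = v
      · subst h1
        simp [hxy, hxy.ne']
      · by_cases h2 : y = v
        · subst h2
          simp [hxy, hxy.ne]
        · simp [h1, h2]
    · have : (if (x, y).1 ≠ (x, y).2 then
      (if (x, y).1 < (x, y).2 then
        ((if (x, y).1 = v then sk c v (x, y).2 • p (x, y).2 else 0) +
          (if (x, y).2 = v then sk c v (x, y).1 • p (x, y).1 else 0)) else 0) else 0)
          = (0 : Fin d → ℝ) := by
        simp only [if_neg hxy, ite_self]
      rw [this]
      by_cases h1 : x = v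
      · subst h1
        by_cases h2 : y = x
        · subst h2; simp
        · simp [hxy, h2]
      · by_cases h2 : y = v
        · subst h2; simp [h1, hxy]
        · simp [h1, h2]
  rw [Finset.sum_congr rfl fun x _ => Finset.sum_congr rfl fun y _ => h3 x y]
  simp only [Finset.sum_add_distrib]
  rw [Finset.sum_comm (s := univ) (t := univ)
    (f := fun x y => if y = v then (if x < v then sk c v x • p x else 0) else (0 : Fin d → ℝ))]
  have h4 : ∑ x : Fin n, ∑ y : Fin n,
      (if x = v then (if v < y then sk c v y • p y else 0) else (0 : Fin d → ℝ)) =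
      ∑ y, (if v < y then sk c v y • p y else 0) := by
    rw [Finset.sum_comm]
    refine Finset.sum_congr rfl fun y _ => ?_
    rw [Finset.sum_ite_eq' univ v]
    simp
  have h5 : ∑ y : Fin n, ∑ x : Fin n,
      (if y = v then (if x < v then sk c v x • p x else 0) else (0 : Fin d → ℝ)) =
      ∑ x, (if x < v then sk c v x • p x else 0) := by
    rw [Finset.sum_comm]
    refine Finset.sum_congr rfl fun x _ => ?_
    rw [Finset.sum_ite_eq' univ v]
    simp
  rw [h4, h5, ← Finset.sum_add_distrib]
  refine Finset.sum_congr rfl fun y _ => ?_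
  rcases lt_trichotomy v y with h | h | h
  · simp [h, not_lt.2 h.le]
  · subst h; simp [sk]
  · simp [h, not_lt.2 h.le]

/-- Linear independence of a set of edges in terms of stresses. -/
theorem linearIndepOn_iff_stress {p : Fin n → Fin d → ℝ} {S : Set (Sym2 (Fin n))}
    (hS : S ⊆ edges n) :
    LinearIndepOn ℝ (vec p) S ↔
      ∀ ω, IsStress p ω → (∀ i j, s(i, j) ∉ S → ω i j = 0) → ω = 0 := by
  classical
  set T : Finset (Sym2 (Fin n)) := S.toFinset with hT
  have hST : (T : Set (Sym2 (Fin n))) = S := Set.coe_toFinset S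
  rw [← hST, linearIndepOn_finset_iff]
  have key : ∀ c : Sym2 (Fin n) → ℝ, (∀ e, e ∉ T → c e = 0) → ∀ v,
      (∑ e ∈ T, c e • vec p e) v = ∑ j, sk c v j • p j := by
    intro c hc v
    rw [← sum_vec p c v]
    have h0 : ∑ e ∈ T, c e • vec p e =
        ∑ e ∈ (univ : Finset (Sym2 (Fin n))) with ¬ e.IsDiag, c e • vec p e := by
      refine Finset.sum_subset ?_ ?_
      · intro e he
        rw [mem_filter]
        exact ⟨mem_univ _, hS (hST ▸ he)⟩
      · intro e _ he
        rw [hc e he, zero_smul]
    rw [h0]
  constructor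
  · intro h ω hω hsupp
    set c : Sym2 (Fin n) → ℝ := fun e => if e ∈ T then ω e.inf e.sup else 0 with hc
    have hc0 : ∀ e, e ∉ T → c e = 0 := fun e he => by rw [hc]; simp [he]
    have hωii : ∀ i, ω i i = 0 := fun i => by have := hω.1 i i; linarith
    have hsk : ∀ i j, sk c i j = ω i j := by
      intro i j
      unfold sk
      rcases lt_trichotomy i j with h1 | h1 | h1
      · rw [if_pos h1]
        by_cases h2 : s(i, j) ∈ T
        · simp [hc, h2, h1.le]
        · rw [hc0 _ h2, hsupp i j (fun h => h2 (Finset.mem_coe.1 h))]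
      · subst h1; simp [hωii]
      · rw [if_neg (not_lt.2 h1.le), if_pos h1]
        by_cases h2 : s(i, j) ∈ T
        · simp only [hc, h2, if_true, Sym2.inf_mk, Sym2.sup_mk, inf_eq_right.2 h1.le,
            sup_eq_left.2 h1.le]
          rw [hω.1 i j]
        · rw [hc0 _ h2, hsupp i j (fun h => h2 (Finset.mem_coe.1 h)), neg_zero]
    have h1 : ∑ e ∈ T, c e • vec p e = 0 := by
      funext v
      rw [key c hc0 v]
      simp only [hsk]
      exact hω.2 v
    have h2 := h c h1
    funext i j
    rw [← hsk]
    unfold sk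
    have h3 : c s(i, j) = 0 := by
      by_cases h4 : s(i, j) ∈ T
      · exact h2 _ h4
      · exact hc0 _ h4
    rw [h3]
    simp
  · intro h g hg
    set c : Sym2 (Fin n) → ℝ := fun e => if e ∈ T then g e else 0 with hc
    have hc0 : ∀ e, e ∉ T → c e = 0 := fun e he => by rw [hc]; simp [he]
    have hgc : ∑ e ∈ T, c e • vec p e = 0 := by
      rw [← hg]
      refine Finset.sum_congr rfl fun e he => ?_
      simp [hc, he]
    have h1 := h (sk c) ⟨sk_skew c, fun v => by rw [← key c hc0 v, hgc]; rfl⟩ (by
      intro i j hij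
      have : c s(i, j) = 0 := hc0 _ (fun h => hij (Finset.mem_coe.2 h))
      unfold sk
      rw [this]; simp)
    intro e he
    have hd : ¬ e.IsDiag := hS (hST ▸ he)
    induction e using Sym2.ind with
    | _ i j =>
      have hij : i ≠ j := fun h => hd (by rw [h]; exact rfl)
      have h2 := congrFun (congrFun h1 i) j
      have h3 : c s(i, j) = g s(i, j) := by simp [hc, he]
      rw [← h3]
      unfold sk at h2
      rcases lt_or_gt_of_ne hij with h4 | h4
      · rw [if_pos h4] at h2
        exact h2
      · rw [if_neg (not_lt.2 h4.le), if_pos h4] at h2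
        have : - c s(i, j) = 0 := h2
        linarith

end Pool.Agent.W5h1.Hyp
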