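import Pool.Agent.W5h1.Hyp.Cones

set_option autoImplicit false

namespace Pool.Agent.W5h1.Hyp

open Finset

variable {n d : ℕ}

/-- The edge set of the complete tripartite graph with the parts `V₁, V₂, V₃`. -/
def triSet (V₁ V₂ V₃ : Finset (Fin n)) : Set (Sym2 (Fin n)) :=
  {e | (∀ v ∈ e, v ∈ V₁ ∪ V₂ ∪ V₃) ∧ ¬ (∀ v ∈ e, v ∈ V₁) ∧ ¬ (∀ v ∈ e, v ∈ V₂) ∧
    ¬ (∀ v ∈ e, v ∈ V₃)}

theorem mem_triSet {V₁ V₂ V₃ : Finset (Fin n)} {i j : Fin n} :
    s(i, j) ∈ triSet V₁ V₂ V₃ ↔ (i ∈ V₁ ∪ V₂ ∪ V₃ ∧ j ∈ V₁ ∪ V₂ ∪ V₃) ∧ ¬ (i ∈ V₁ ∧ j ∈ V₁) ∧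
      ¬ (i ∈ V₂ ∧ j ∈ V₂) ∧ ¬ (i ∈ V₃ ∧ j ∈ V₃) := by
  simp only [triSet, Set.mem_ofPred_eq, Sym2.mem_iff]
  simp only [forall_eq_or_imp, forall_eq]

theorem triSet_subset_edges (V₁ V₂ V₃ : Finset (Fin n)) : triSet V₁ V₂ V₃ ⊆ edges n := by
  intro e
  induction e using Sym2.ind with
  | _ i j =>
    intro h
    rw [mem_triSet] at h
    show ¬ (s(i, j)).IsDiag
    rw [Sym2.mk_isDiag_iff]
    rintro rfl
    simp only [Finset.mem_union] at h
    tauto

/-- The data of a stress on the complete tripartite graph. -/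
structure TriData (p : Fin n → Fin d → ℝ) (V₁ V₂ V₃ : Finset (Fin n)) (b c₂ c₃ : Fin n → ℝ)
    (g : Fin d → ℝ) : Prop where
  d12 : Disjoint V₁ V₂
  d13 : Disjoint V₁ V₃
  d23 : Disjoint V₂ V₃
  ne2 : V₂.Nonempty
  ne3 : V₃.Nonempty
  hb : ∀ v, v ∉ V₁ → b v = 0
  hc2 : ∀ v, c₂ v ≠ 0 ↔ v ∈ V₂
  hc3 : ∀ v, c₃ v ≠ 0 ↔ v ∈ V₃
  sb : ∑ v, b v • p v = g
  s2 : ∑ v, c₂ v • p v = g
  s3 : ∑ v, c₃ v • p v = g
  f1 : Free p V₁
  f3 : Free p V₃
  dep : ∀ z : Fin n → ℝ, (∀ v, v ∉ V₂ → v ∉ V₃ → z v = 0) → ∑ v, z v • p v = 0 →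
    ∃ t : ℝ, ∀ v, z v = t * (c₃ v - c₂ v)

theorem TriData.c2_zero {p : Fin n → Fin d → ℝ} {V₁ V₂ V₃ : Finset (Fin n)}
    {b c₂ c₃ : Fin n → ℝ} {g : Fin d → ℝ} (h : TriData p V₁ V₂ V₃ b c₂ c₃ g) {v : Fin n}
    (hv : v ∉ V₂) : c₂ v = 0 := by
  by_contra h1
  exact hv ((h.hc2 v).1 h1)

theorem TriData.c3_zero {p : Fin n → Fin d → ℝ} {V₁ V₂ V₃ : Finset (Fin n)}
    {b c₂ c₃ : Fin n → ℝ} {g : Fin d → ℝ} (h : TriData p V₁ V₂ V₃ b c₂ c₃ g) {v : Fin n}
    (hv : v ∉ V₃) : c₃ v = 0 := by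
  by_contra h1
  exact hv ((h.hc3 v).1 h1)

/-- The stress on the complete tripartite graph. -/
def triStress (b c₂ c₃ : Fin n → ℝ) (i j : Fin n) : ℝ :=
  wedge b c₂ i j + wedge c₂ c₃ i j + wedge c₃ b i j

theorem TriData.isStress {p : Fin n → Fin d → ℝ} {V₁ V₂ V₃ : Finset (Fin n)}
    {b c₂ c₃ : Fin n → ℝ} {g : Fin d → ℝ} (h : TriData p V₁ V₂ V₃ b c₂ c₃ g) :
    IsStress p (triStress b c₂ c₃) := by
  refine ⟨fun i j => ?_, fun i => ?_⟩
  · unfold triStress wedge; ring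
  · simp only [triStress, add_smul, Finset.sum_add_distrib, sum_wedge, h.sb, h.s2, h.s3]
    abel

theorem TriData.supp {p : Fin n → Fin d → ℝ} {V₁ V₂ V₃ : Finset (Fin n)}
    {b c₂ c₃ : Fin n → ℝ} {g : Fin d → ℝ} (h : TriData p V₁ V₂ V₃ b c₂ c₃ g) (i j : Fin n)
    (hij : s(i, j) ∉ triSet V₁ V₂ V₃) : triStress b c₂ c₃ i j = 0 := by
  classical
  have h12 : ∀ v, v ∈ V₁ → v ∉ V₂ := fun v h' => Finset.disjoint_left.1 h.d12 h'
  have h13 : ∀ v, v ∈ V₁ → v ∉ V₃ := fun v h' => Finset.disjoint_left.1 h.d13 h'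
  have h23 : ∀ v, v ∈ V₂ → v ∉ V₃ := fun v h' => Finset.disjoint_left.1 h.d23 h'
  rw [mem_triSet] at hij
  unfold triStress wedge
  by_cases h1 : i ∈ V₁ ∪ V₂ ∪ V₃
  · by_cases h2 : j ∈ V₁ ∪ V₂ ∪ V₃
    · by_cases h3 : i ∈ V₁ ∧ j ∈ V₁
      · rw [h.c2_zero (h12 i h3.1), h.c2_zero (h12 j h3.2), h.c3_zero (h13 i h3.1),
          h.c3_zero (h13 j h3.2)]; ring
      by_cases h4 : i ∈ V₂ ∧ j ∈ V₂
      · rw [h.hb i (fun h' => h12 i h' h4.1), h.hb j (fun h' => h12 j h' h4.2),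
          h.c3_zero (h23 i h4.1), h.c3_zero (h23 j h4.2)]; ring
      have h5 : i ∈ V₃ ∧ j ∈ V₃ := by tauto
      rw [h.hb i (fun h' => h13 i h' h5.1), h.hb j (fun h' => h13 j h' h5.2),
        h.c2_zero (fun h' => h23 i h' h5.1), h.c2_zero (fun h' => h23 j h' h5.2)]; ring
    · simp only [Finset.mem_union, not_or] at h2
      rw [h.hb j h2.1.1, h.c2_zero h2.1.2, h.c3_zero h2.2]; ring
  · simp only [Finset.mem_union, not_or] at h1
    rw [h.hb i h1.1.1, h.c2_zero h1.1.2, h.c3_zero h1.2]; ring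

theorem TriData.g_ne {p : Fin n → Fin d → ℝ} {V₁ V₂ V₃ : Finset (Fin n)}
    {b c₂ c₃ : Fin n → ℝ} {g : Fin d → ℝ} (h : TriData p V₁ V₂ V₃ b c₂ c₃ g) : g ≠ 0 := by
  intro hg
  obtain ⟨v, hv⟩ := h.ne3
  have h1 := h.f3 c₃ (fun w hw => h.c3_zero hw) (by rw [h.s3, hg])
  exact (h.hc3 v).2 hv (by rw [h1]; rfl)

theorem TriData.not_indep {p : Fin n → Fin d → ℝ} {V₁ V₂ V₃ : Finset (Fin n)}
    {b c₂ c₃ : Fin n → ℝ} {g : Fin d → ℝ} (h : TriData p V₁ V₂ V₃ b c₂ c₃ g) :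
    ¬ LinearIndepOn ℝ (vec p) (triSet V₁ V₂ V₃) := by
  classical
  rw [linearIndepOn_iff_stress (triSet_subset_edges V₁ V₂ V₃)]
  intro h0
  have h1 := h0 _ h.isStress h.supp
  obtain ⟨i, hi⟩ := h.ne2
  obtain ⟨j, hj⟩ := h.ne3
  have h2 := congrFun (congrFun h1 i) j
  have h3 : c₂ j = 0 := h.c2_zero (fun h' => Finset.disjoint_left.1 h.d23 h' hj)
  have h4 : b i = 0 := h.hb i (fun h' => Finset.disjoint_left.1 h.d12 h' hi)
  have h5 : b j = 0 := h.hb j (fun h' => Finset.disjoint_left.1 h.d13 h' hj)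
  simp only [triStress, wedge, h3, h4, h5, Pi.zero_apply] at h2
  have h6 : c₂ i * c₃ j = 0 := by linarith
  exact mul_ne_zero ((h.hc2 i).2 hi) ((h.hc3 j).2 hj) h6

/-- All stresses on the complete tripartite graph are multiples of one stress. -/
theorem TriData.unique {p : Fin n → Fin d → ℝ} {V₁ V₂ V₃ : Finset (Fin n)}
    {b c₂ c₃ : Fin n → ℝ} {g : Fin d → ℝ} (h : TriData p V₁ V₂ V₃ b c₂ c₃ g)
    {ω : Fin n → Fin n → ℝ} (hω : IsStress p ω)
    (hs : ∀ i j, s(i, j) ∉ triSet V₁ V₂ V₃ → ω i j = 0) :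
    ∃ t : ℝ, ∀ i j, ω i j = t * triStress b c₂ c₃ i j := by
  classical
  have h12 : ∀ v, v ∈ V₁ → v ∉ V₂ := fun v h' => Finset.disjoint_left.1 h.d12 h'
  have h13 : ∀ v, v ∈ V₁ → v ∉ V₃ := fun v h' => Finset.disjoint_left.1 h.d13 h'
  have h23 : ∀ v, v ∈ V₂ → v ∉ V₃ := fun v h' => Finset.disjoint_left.1 h.d23 h'
  -- the rows of the first part
  have hrow1 : ∀ i, i ∈ V₁ → ∃ t : ℝ, ∀ j, ω i j = t * (c₃ j - c₂ j) := by
    intro i hi
    refine h.dep (ω i) (fun v hv2 hv3 => hs i v ?_) (hω.2 i)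
    rw [mem_triSet]
    rintro ⟨⟨-, h1⟩, h2, -⟩
    simp only [Finset.mem_union] at h1
    tauto
  have hα : ∃ α : Fin n → ℝ, (∀ i, i ∉ V₁ → α i = 0) ∧
      ∀ i ∈ V₁, ∀ j, ω i j = α i * (c₃ j - c₂ j) := by
    refine ⟨fun i => if h : i ∈ V₁ then (hrow1 i h).choose else 0, fun i hi => by simp [hi],
      fun i hi j => ?_⟩
    simp only [hi, dif_pos]
    exact (hrow1 i hi).choose_spec j
  obtain ⟨α, hα0, hα1⟩ := hα
  -- the rows of the second part
  set q : Fin d → ℝ := ∑ v, α v • p v with hq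
  have hrow2 : ∀ i ∈ V₂, ∀ j, ω i j = c₂ i * α j + (if j ∈ V₃ then ω i j else 0) := by
    intro i hi j
    by_cases hj1 : j ∈ V₁
    · rw [if_neg (h13 j hj1), hω.1 i j, hα1 j hj1 i,
        h.c3_zero (h23 i hi)]
      ring
    · rw [hα0 j hj1]
      by_cases hj3 : j ∈ V₃
      · rw [if_pos hj3]; ring
      · rw [if_neg hj3, hs i j (by
          rw [mem_triSet]
          rintro ⟨⟨-, h1⟩, -, h2, -⟩
          simp only [Finset.mem_union] at h1
          tauto)]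
        ring
  have hsum2 : ∀ i ∈ V₂, c₂ i • q + ∑ j, (if j ∈ V₃ then ω i j else 0) • p j = 0 := by
    intro i hi
    have h1 := hω.2 i
    rw [Finset.sum_congr rfl (fun j _ => by rw [hrow2 i hi j])] at h1
    simp only [add_smul, Finset.sum_add_distrib, mul_smul, ← Finset.smul_sum] at h1
    exact h1
  obtain ⟨i0, hi0⟩ := h.ne2
  obtain ⟨j0, hj0⟩ := h.ne3
  have hc20 : c₂ i0 ≠ 0 := (h.hc2 i0).2 hi0
  have hc30 : c₃ j0 ≠ 0 := (h.hc3 j0).2 hj0
  set δ : Fin n → ℝ := fun j => if j ∈ V₃ then - ω i0 j / c₂ i0 else 0 with hδ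
  have hδ0 : ∀ j, j ∉ V₃ → δ j = 0 := fun j hj => by simp [hδ, hj]
  have hδs : ∑ j, δ j • p j = q := by
    have h1 := hsum2 i0 hi0
    have h2 : ∑ j, δ j • p j = - (c₂ i0)⁻¹ • ∑ j, (if j ∈ V₃ then ω i0 j else 0) • p j := by
      rw [Finset.smul_sum]
      refine Finset.sum_congr rfl fun j _ => ?_
      rw [smul_smul]
      congr 1
      simp only [hδ]
      split_ifs <;> ring
    rw [h2, eq_neg_of_add_eq_zero_right h1, smul_neg, neg_smul, neg_neg, smul_smul,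
      inv_mul_cancel₀ hc20, one_smul]
  have hω2 : ∀ i ∈ V₂, ∀ j ∈ V₃, ω i j = - c₂ i * δ j := by
    intro i hi j hj
    have h1 := h.f3 (fun j => (if j ∈ V₃ then ω i j else 0) + c₂ i * δ j) (fun v hv => by
      simp [hv, hδ0 v hv]) (by
      simp only [add_smul, Finset.sum_add_distrib, mul_smul, ← Finset.smul_sum, hδs]
      rw [add_comm]
      exact hsum2 i hi)
    have h2 := congrFun h1 j
    simp only [hj, if_true, Pi.zero_apply] at h2
    linarith
  -- the rows of the third part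
  have hrow3 : ∀ i ∈ V₃, ∀ j, ω i j = - c₃ i * α j + δ i * c₂ j := by
    intro i hi j
    by_cases hj1 : j ∈ V₁
    · rw [hω.1 i j, hα1 j hj1 i, h.c2_zero (fun h' => h23 i h' hi), h.c2_zero (h12 j hj1)]
      ring
    · rw [hα0 j hj1]
      by_cases hj2 : j ∈ V₂
      · rw [hω.1 i j, hω2 j hj2 i hi]; ring
      · rw [h.c2_zero hj2, hs i j (by
          rw [mem_triSet]
          rintro ⟨⟨-, h1⟩, -, -, h2⟩
          simp only [Finset.mem_union] at h1
          tauto)]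
        ring
  have hsum3 : ∀ i ∈ V₃, - c₃ i • q + δ i • g = 0 := by
    intro i hi
    have h1 := hω.2 i
    rw [Finset.sum_congr rfl (fun j _ => by rw [hrow3 i hi j])] at h1
    simp only [add_smul, Finset.sum_add_distrib, mul_smul, ← Finset.smul_sum, h.s2] at h1
    exact h1
  set t : ℝ := δ j0 / c₃ j0 with ht
  have hqt : q = t • g := by
    have h1 := hsum3 j0 hj0
    have h2 : c₃ j0 • q = δ j0 • g := by
      rw [neg_smul] at h1
      exact (neg_add_eq_zero.1 h1)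
    have h3 : q = (c₃ j0)⁻¹ • (c₃ j0 • q) := by
      rw [smul_smul, inv_mul_cancel₀ hc30, one_smul]
    rw [h3, h2, smul_smul, ht]
    congr 1
    field_simp
  have hαt : ∀ v, α v = t * b v := by
    intro v
    have h1 := h.f1 (fun v => α v - t * b v) (fun v hv => by simp [hα0 v hv, h.hb v hv]) (by
      simp only [sub_smul, Finset.sum_sub_distrib, mul_smul, ← Finset.smul_sum, h.sb]
      rw [← hq, hqt, sub_self])
    have h2 := congrFun h1 v
    simp only [Pi.zero_apply] at h2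
    linarith
  have hδt : ∀ v, δ v = t * c₃ v := by
    intro v
    have h1 := h.f3 (fun v => δ v - t * c₃ v) (fun v hv => by simp [hδ0 v hv, h.c3_zero hv]) (by
      simp only [sub_smul, Finset.sum_sub_distrib, mul_smul, ← Finset.smul_sum, h.s3]
      rw [hδs, hqt, sub_self])
    have h2 := congrFun h1 v
    simp only [Pi.zero_apply] at h2
    linarith
  -- comparison
  refine ⟨-t, fun i j => ?_⟩
  by_cases hij : s(i, j) ∈ triSet V₁ V₂ V₃
  · rw [mem_triSet] at hij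
    obtain ⟨⟨hi, hj⟩, hn1, hn2, hn3⟩ := hij
    simp only [Finset.mem_union] at hi hj
    by_cases hi1 : i ∈ V₁
    · rw [hα1 i hi1 j, hαt]
      have hj1 : j ∉ V₁ := fun h' => hn1 ⟨hi1, h'⟩
      simp only [triStress, wedge, h.c2_zero (h12 i hi1), h.c3_zero (h13 i hi1), h.hb j hj1]
      ring
    by_cases hj1 : j ∈ V₁
    · rw [hω.1 i j, hα1 j hj1 i, hαt]
      simp only [triStress, wedge, h.c2_zero (h12 j hj1), h.c3_zero (h13 j hj1), h.hb i hi1]
      ring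
    by_cases hi2 : i ∈ V₂
    · have hj3 : j ∈ V₃ := by tauto
      rw [hω2 i hi2 j hj3, hδt]
      simp only [triStress, wedge, h.hb i hi1, h.hb j hj1, h.c3_zero (h23 i hi2)]
      ring
    · have hi3 : i ∈ V₃ := by tauto
      have hj2 : j ∈ V₂ := by tauto
      rw [hω.1 i j, hω2 j hj2 i hi3, hδt]
      simp only [triStress, wedge, h.hb i hi1, h.hb j hj1, h.c3_zero (h23 j hj2)]
      ring
  · rw [hs i j hij, h.supp i j hij, mul_zero]

theorem TriData.minus_indep {p : Fin n → Fin d → ℝ} {V₁ V₂ V₃ : Finset (Fin n)}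
    {b c₂ c₃ : Fin n → ℝ} {g : Fin d → ℝ} (h : TriData p V₁ V₂ V₃ b c₂ c₃ g)
    (hb1 : ∀ v ∈ V₁, b v ≠ 0) {e : Sym2 (Fin n)} (he : e ∈ triSet V₁ V₂ V₃) :
    LinearIndepOn ℝ (vec p) (triSet V₁ V₂ V₃ \ {e}) := by
  classical
  have h12 : ∀ v, v ∈ V₁ → v ∉ V₂ := fun v h' => Finset.disjoint_left.1 h.d12 h'
  have h13 : ∀ v, v ∈ V₁ → v ∉ V₃ := fun v h' => Finset.disjoint_left.1 h.d13 h'
  have h23 : ∀ v, v ∈ V₂ → v ∉ V₃ := fun v h' => Finset.disjoint_left.1 h.d23 h'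
  rw [linearIndepOn_iff_stress (Set.sdiff_subset.trans (triSet_subset_edges V₁ V₂ V₃))]
  intro ω hω hs
  obtain ⟨t, ht⟩ := h.unique hω (fun i j h => hs i j (fun h' => h h'.1))
  have ht0 : t = 0 := by
    induction e using Sym2.ind with
    | _ i j =>
      have h1 := hs i j (fun h => h.2 rfl)
      rw [ht i j] at h1
      rcases mul_eq_zero.1 h1 with h2 | h2
      · exact h2
      · exfalso
        revert h2
        show triStress b c₂ c₃ i j ≠ 0
        rw [mem_triSet] at he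
        obtain ⟨⟨hi, hj⟩, hn1, hn2, hn3⟩ := he
        simp only [Finset.mem_union] at hi hj
        have hc2' : ∀ v ∈ V₂, c₂ v ≠ 0 := fun v hv => (h.hc2 v).2 hv
        have hc3' : ∀ v ∈ V₃, c₃ v ≠ 0 := fun v hv => (h.hc3 v).2 hv
        by_cases hi1 : i ∈ V₁
        · have hj1 : j ∉ V₁ := fun h' => hn1 ⟨hi1, h'⟩
          by_cases hj2 : j ∈ V₂
          · have : triStress b c₂ c₃ i j = b i * c₂ j := by
              simp only [triStress, wedge, h.c2_zero (h12 i hi1), h.c3_zero (h13 i hi1),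
                h.hb j hj1, h.c3_zero (h23 j hj2)]
              ring
            rw [this]
            exact mul_ne_zero (hb1 i hi1) (hc2' j hj2)
          · have hj3 : j ∈ V₃ := by tauto
            have : triStress b c₂ c₃ i j = - (b i * c₃ j) := by
              simp only [triStress, wedge, h.c2_zero (h12 i hi1), h.c3_zero (h13 i hi1),
                h.hb j hj1, h.c2_zero hj2]
              ring
            rw [this]
            exact neg_ne_zero.2 (mul_ne_zero (hb1 i hi1) (hc3' j hj3))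
        by_cases hj1 : j ∈ V₁
        · by_cases hi2 : i ∈ V₂
          · have : triStress b c₂ c₃ i j = - (b j * c₂ i) := by
              simp only [triStress, wedge, h.c2_zero (h12 j hj1), h.c3_zero (h13 j hj1),
                h.hb i hi1, h.c3_zero (h23 i hi2)]
              ring
            rw [this]
            exact neg_ne_zero.2 (mul_ne_zero (hb1 j hj1) (hc2' i hi2))
          · have hi3 : i ∈ V₃ := by tauto
            have : triStress b c₂ c₃ i j = b j * c₃ i := by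
              simp only [triStress, wedge, h.c2_zero (h12 j hj1), h.c3_zero (h13 j hj1),
                h.hb i hi1, h.c2_zero hi2]
              ring
            rw [this]
            exact mul_ne_zero (hb1 j hj1) (hc3' i hi3)
        by_cases hi2 : i ∈ V₂
        · have hj3 : j ∈ V₃ := by tauto
          have : triStress b c₂ c₃ i j = c₂ i * c₃ j := by
            simp only [triStress, wedge, h.hb i hi1, h.hb j hj1, h.c3_zero (h23 i hi2)]
            ring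
          rw [this]
          exact mul_ne_zero (hc2' i hi2) (hc3' j hj3)
        · have hi3 : i ∈ V₃ := by tauto
          have hj2 : j ∈ V₂ := by tauto
          have : triStress b c₂ c₃ i j = - (c₂ j * c₃ i) := by
            simp only [triStress, wedge, h.hb i hi1, h.hb j hj1, h.c3_zero (h23 j hj2)]
            ring
          rw [this]
          exact neg_ne_zero.2 (mul_ne_zero (hc2' j hj2) (hc3' i hi3))
  funext i j
  rw [ht i j, ht0]
  simp

end Pool.Agent.W5h1.Hyp
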